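import Pool.Graph.R_pool_sql_team_seeded_3997aac3.Q33.SecL.Gen3

/-!
# Adelic numbers with global Kummer classes: reduction to units
-/

set_option autoImplicit false
set_option linter.unusedSectionVars false

namespace Pool.Agent.H886.Exp

open NumberField IsDedekindDomain Pool.Agent.W518.TC Pool.Agent.Q33.SecL

variable {L : Type} [Field L] [NumberField L]

section one

variable {p : ℕ} [Fact p.Prime]

/-- a positive real number that is a `k!`-th power for infinitely many `k`, in a discrete group -/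
lemma norm_eq_of_powers {c : ℝ}
    (h : ∀ B : ℕ, ∃ k, B ≤ k ∧ ∃ z : ℤ, c = ((p : ℝ) ^ z) ^ k.factorial) : c = 1 := by
  have hp1 : (1 : ℝ) < p := by exact_mod_cast (Fact.out : p.Prime).one_lt
  obtain ⟨k0, -, z0, hz0⟩ := h 0
  have e0 : c = (p : ℝ) ^ (z0 * k0.factorial) := by rw [hz0, zpow_mul, zpow_natCast]
  set t : ℤ := z0 * k0.factorial with ht
  obtain ⟨k, hk, z, hz⟩ := h (t.natAbs + 1)
  have h1 : (p : ℝ) ^ t = (p : ℝ) ^ (z * k.factorial) := by
    rw [← e0, hz, zpow_mul, zpow_natCast]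
  have h2 : t = z * k.factorial := zpow_right_injective₀ (by linarith) hp1.ne' h1
  have h3 : (k.factorial : ℤ) ∣ t := ⟨z, by rw [h2, mul_comm]⟩
  by_cases ht0 : t = 0
  · rw [e0, ht0, zpow_zero]
  · exfalso
    have h4 : k.factorial ≤ t.natAbs := by
      have := Int.natAbs_dvd_natAbs.2 h3
      rw [Int.natAbs_natCast] at this
      exact Nat.le_of_dvd (Int.natAbs_pos.2 ht0) this
    have h5 : k ≤ k.factorial := Nat.self_le_factorial k
    omega

lemma norm_p_self : ‖((p : ℕ) : PadicAlgCl p)‖ = ((p : ℕ) : ℝ)⁻¹ := by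
  have h2 := norm_base (p := p) ((p : ℕ) : ℚ_[p])
  rw [map_natCast] at h2
  rw [h2, Padic.norm_p]

end one

/-- an element with all absolute values at most one is integral -/
lemma isIntegral_of_norm {a : L}
    (h : ∀ (p : ℕ) [Fact p.Prime] (μ : L →+* PadicAlgCl p), ‖μ a‖ ≤ 1) : IsIntegral ℤ a := by
  by_cases ha : a = 0
  · rw [ha]
    exact isIntegral_zero
  rw [isIntegral_iff_ord ha]
  intro v
  obtain ⟨p, hp, μ, hμ⟩ := exists_pv v
  by_contra hlt
  push Not at hlt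
  have h1 := norm_le_of_ord μ (inv_ne_zero ha) (by rw [ord_inv, hμ]; omega)
  have h2 := h p μ
  rw [map_inv₀, norm_inv] at h1
  have h0 : 0 < ‖μ a‖ := norm_pos_iff.2 ((map_ne_zero μ).2 ha)
  have h3 : 1 ≤ ‖μ a‖ := by
    have := (inv_le_one₀ h0).1 h1
    exact this
  have h4 : ‖μ a‖ = ‖μ (1 : L)‖ := by
    rw [map_one, norm_one]
    exact le_antisymm h2 h3
  have h5 := ord_eq_of_norm_eq μ ha one_ne_zero h4
  rw [hμ, ord_one] at h5
  omega

/-- An adelic number, given over all `p` and all embeddings of `L`, whose Kummer classes are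
given by elements of `L`, and which is a unit at almost all places. -/
structure Adl (Mf : ∀ (p : ℕ) [Fact p.Prime], IntermediateField ℚ_[p] (PadicAlgCl p))
    (Y : ∀ (p : ℕ) [Fact p.Prime], (L →+* PadicAlgCl p) → PadicAlgCl p) : Prop where
  ne : ∀ (p : ℕ) [Fact p.Prime] (μ : L →+* PadicAlgCl p), Y p μ ≠ 0
  kum : ∀ N : ℕ, 0 < N → ∃ q : L, ∀ (p : ℕ) [Fact p.Prime] (μ : L →+* PadicAlgCl p),
    ∃ w ∈ Mf p, (∃ z : ℤ, ‖w‖ = (p : ℝ) ^ z) ∧ Y p μ = μ q * w ^ N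
  unit : ∃ D : ℕ, 0 < D ∧ ∀ (p : ℕ) [Fact p.Prime] (μ : L →+* PadicAlgCl p), ¬ p ∣ D →
    ‖Y p μ‖ = 1

variable {Mf : ∀ (p : ℕ) [Fact p.Prime], IntermediateField ℚ_[p] (PadicAlgCl p)}
    {Y : ∀ (p : ℕ) [Fact p.Prime], (L →+* PadicAlgCl p) → PadicAlgCl p}

/-- **Reduction to units.** -/
theorem Adl.units (hMf : ∀ (p : ℕ) [Fact p.Prime], FiniteDimensional ℚ_[p] (Mf p))
    (hMμ : ∀ (p : ℕ) [Fact p.Prime] (μ : L →+* PadicAlgCl p) (x : L), μ x ∈ Mf p)
    (hY : Adl Mf Y) : ∃ γ : L, γ ≠ 0 ∧ ∀ k : ℕ, ∃ η : L, η ≠ 0 ∧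
    (∀ v, ord v η = 0) ∧ ∀ (p : ℕ) [Fact p.Prime] (μ : L →+* PadicAlgCl p),
      ∃ w ∈ Mf p, ‖w‖ = 1 ∧ Y p μ = μ (γ * η) * w ^ k.factorial := by
  classical
  obtain ⟨h, hh, H⟩ := exists_gen L
  choose β hβ0 hβint hβv hβw using H
  obtain ⟨D, hD, hunit⟩ := hY.unit
  have hhk : ∀ k : ℕ, 0 < h * k.factorial := fun k => Nat.mul_pos hh (Nat.factorial_pos _)
  choose q key using fun k : ℕ => hY.kum (h * k.factorial) (hhk k)
  obtain ⟨q1, key1⟩ := hY.kum 1 one_pos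
  have hq0 : ∀ k, q k ≠ 0 := by
    intro k h0
    obtain ⟨μ⟩ : Nonempty (L →+* PadicAlgCl 2) := inferInstance
    obtain ⟨w, -, -, hw⟩ := key k 2 μ
    rw [h0, map_zero, zero_mul] at hw
    exact hY.ne 2 μ hw
  have hq1 : q1 ≠ 0 := by
    intro h0
    obtain ⟨μ⟩ : Nonempty (L →+* PadicAlgCl 2) := inferInstance
    obtain ⟨w, -, -, hw⟩ := key1 2 μ
    rw [h0, map_zero, zero_mul] at hw
    exact hY.ne 2 μ hw
  -- embeddings for all primes
  choose pp hpp mu hmu using exists_pv (L := L)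
  -- the orders of `Y`
  have hb : ∀ v, ∃ b : L, b ≠ 0 ∧ ‖@Y (pp v) (hpp v) (mu v)‖ = ‖mu v b‖ := by
    intro v
    have := hpp v
    obtain ⟨w, -, ⟨z, hz⟩, hw⟩ := key1 (pp v) (mu v)
    have hp0 : ((pp v : ℕ) : L) ≠ 0 := by exact_mod_cast (hpp v).out.ne_zero
    refine ⟨q1 * ((pp v : ℕ) : L) ^ (-z), mul_ne_zero hq1 (zpow_ne_zero _ hp0), ?_⟩
    rw [hw, pow_one, norm_mul, hz, map_mul, norm_mul, map_zpow₀, norm_zpow,
      map_natCast, norm_p_self, inv_zpow, zpow_neg, inv_inv]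
  choose b hb0 hb using hb
  let r : HeightOneSpectrum (𝓞 L) → ℤ := fun v => ord v (b v)
  have hz : ∀ k v, ∃ z : ℤ, ord v (q k) = r v + (h * k.factorial : ℕ) * z := by
    intro k v
    have := hpp v
    obtain ⟨w, -, ⟨z, hz⟩, hw⟩ := key k (pp v) (mu v)
    have hp0 : ((pp v : ℕ) : L) ≠ 0 := by exact_mod_cast (hpp v).out.ne_zero
    refine ⟨z * ord v ((pp v : ℕ) : L), ?_⟩
    have h2 : ‖mu v (q k * (((pp v : ℕ) : L) ^ (-z)) ^ (h * k.factorial))‖ = ‖mu v (b v)‖ := by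
      rw [← hb v, hw, norm_mul, norm_pow, hz, map_mul, norm_mul, map_pow, norm_pow, map_zpow₀,
        norm_zpow, map_natCast, norm_p_self, inv_zpow, zpow_neg, inv_inv]
    have h3 := ord_eq_of_norm_eq (mu v) (mul_ne_zero (hq0 k) (pow_ne_zero _ (zpow_ne_zero _ hp0)))
      (hb0 v) h2
    rw [hmu v, ord_mul v (hq0 k) (pow_ne_zero _ (zpow_ne_zero _ hp0)), ord_pow, ord_zpow] at h3
    simp only [r]
    rw [← h3]
    ring
  choose z hz using hz
  have hr : {v | r v ≠ 0}.Finite := by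
    refine (finite_dvd (I := Ideal.span {((D : ℕ) : 𝓞 L)}) (by simpa using hD.ne')).subset
      fun v hv => ?_
    rw [Set.mem_ofPred_eq, Ideal.dvd_span_singleton]
    have := hpp v
    have hpD : pp v ∣ D := by
      by_contra hc
      apply hv
      have h1 := hunit (pp v) (mu v) hc
      rw [hb v] at h1
      have h2 := ord_eq_of_norm_eq (mu v) (hb0 v) one_ne_zero (by rw [h1, map_one, norm_one])
      rw [hmu v, ord_one] at h2
      exact h2
    obtain ⟨m, hm⟩ := hpD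
    have h1 : ((pp v : ℕ) : 𝓞 L) ∈ v.asIdeal := by
      have h2 := natCast_mem_primeOf (mu v)
      have h3 : primeOf (mu v) = v.asIdeal := congrArg HeightOneSpectrum.asIdeal (hmu v)
      rw [h3] at h2
      exact h2
    rw [hm, Nat.cast_mul]
    exact Ideal.mul_mem_right _ _ h1
  have hzf : ∀ k, {v | z k v ≠ 0}.Finite := by
    intro k
    refine (hr.union (finite_ord (hq0 k))).subset fun v hv => ?_
    by_contra hc
    rw [Set.mem_union, not_or] at hc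
    have h1 : r v = 0 := by
      by_contra h
      exact hc.1 h
    have h2 : ord v (q k) = 0 := by
      by_contra h
      exact hc.2 h
    apply hv
    have h3 := hz k v
    rw [h1, h2, zero_add] at h3
    have h4 : ((h * k.factorial : ℕ) : ℤ) ≠ 0 := by exact_mod_cast (hhk k).ne'
    exact (mul_eq_zero.1 h3.symm).resolve_left h4
  choose g hg0 hg using fun k => exists_prod hβ0 hβv hβw (z k) (hzf k)
  let γ : ℕ → L := fun k => q k / g k ^ k.factorial
  have hγ0 : ∀ k, γ k ≠ 0 := fun k => div_ne_zero (hq0 k) (pow_ne_zero _ (hg0 k))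
  have hγ : ∀ k v, ord v (γ k) = r v := by
    intro k v
    simp only [γ]
    rw [ord_div v (hq0 k) (pow_ne_zero _ (hg0 k)), ord_pow, hg, hz]
    push_cast
    ring
  have hη : ∀ k v, ord v (γ k / γ 0) = 0 := by
    intro k v
    rw [ord_div v (hγ0 k) (hγ0 0), hγ, hγ, sub_self]
  have hw : ∀ (p : ℕ) [Fact p.Prime] (μ : L →+* PadicAlgCl p) (k : ℕ),
      ∃ w ∈ Mf p, Y p μ = μ (γ k) * w ^ k.factorial := by
    intro p _ μ k
    obtain ⟨w, hw, -, hw'⟩ := key k p μ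
    refine ⟨μ (g k) * w ^ h, mul_mem (hMμ p μ _) (pow_mem hw _), ?_⟩
    have h1 : μ (g k) ^ k.factorial ≠ 0 := pow_ne_zero _ ((map_ne_zero μ).2 (hg0 k))
    rw [hw', mul_pow, ← pow_mul]
    simp only [γ]
    rw [map_div₀, map_pow]
    field_simp
  have hnorm : ∀ (p : ℕ) [Fact p.Prime] (μ : L →+* PadicAlgCl p), ‖Y p μ‖ = ‖μ (γ 0)‖ := by
    intro p _ μ
    have hγp : 0 < ‖μ (γ 0)‖ := norm_pos_iff.2 ((map_ne_zero μ).2 (hγ0 0))
    have hYp : 0 < ‖Y p μ‖ := norm_pos_iff.2 (hY.ne p μ)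
    set n := (Module.finrank ℚ_[p] (Mf p)).factorial with hn
    have h1 : (‖Y p μ‖ / ‖μ (γ 0)‖) ^ n = 1 := by
      refine norm_eq_of_powers (p := p) fun B => ?_
      obtain ⟨w, hwm, hw'⟩ := hw p μ B
      have hw0 : w ≠ 0 := by
        rintro rfl
        rw [zero_pow (Nat.factorial_ne_zero _), mul_zero] at hw'
        exact hY.ne p μ hw'
      obtain ⟨z, hz⟩ := norm_pow_mem (Mf p) (hMf p) hwm hw0 le_rfl
      refine ⟨B, le_rfl, z, ?_⟩
      have h2 : ‖μ (γ B)‖ = ‖μ (γ 0)‖ := by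
        have h3 := norm_eq_one_of_ord μ (div_ne_zero (hγ0 B) (hγ0 0)) (hη B _)
        rw [map_div₀, norm_div] at h3
        exact (div_eq_one_iff_eq hγp.ne').1 h3
      rw [hw', norm_mul, norm_pow, h2, mul_div_cancel_left₀ _ hγp.ne', ← hz, hn, ← pow_mul,
        ← pow_mul, mul_comm]
    have h2 := (pow_eq_one_iff_of_nonneg (by positivity) (Nat.factorial_ne_zero _)).1 h1
    exact (div_eq_one_iff_eq hγp.ne').1 h2
  refine ⟨γ 0, hγ0 0, fun k => ⟨γ k / γ 0, div_ne_zero (hγ0 k) (hγ0 0), hη k, fun p _ μ => ?_⟩⟩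
  obtain ⟨w, hwm, hw'⟩ := hw p μ k
  refine ⟨w, hwm, ?_, ?_⟩
  · have hγp : 0 < ‖μ (γ 0)‖ := norm_pos_iff.2 ((map_ne_zero μ).2 (hγ0 0))
    have h2 : ‖μ (γ k)‖ = ‖μ (γ 0)‖ := by
      have h3 := norm_eq_one_of_ord μ (div_ne_zero (hγ0 k) (hγ0 0)) (hη k _)
      rw [map_div₀, norm_div] at h3
      exact (div_eq_one_iff_eq hγp.ne').1 h3
    have h3 := congrArg norm hw'
    rw [norm_mul, norm_pow, h2, hnorm] at h3
    have h4 : ‖w‖ ^ k.factorial = 1 := by
      have h5 : ‖μ (γ 0)‖ * ‖w‖ ^ k.factorial = ‖μ (γ 0)‖ * 1 := by rw [← h3, mul_one]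
      exact mul_left_cancel₀ hγp.ne' h5
    exact (pow_eq_one_iff_of_nonneg (norm_nonneg _) (Nat.factorial_ne_zero _)).1 h4
  · rw [hw', mul_div_cancel₀ _ (hγ0 0)]

end Pool.Agent.H886.Exp
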