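import Pool.Agent.H886.Exp.Adl

/-!
# Archimedean estimates
-/

set_option autoImplicit false
set_option linter.unusedSectionVars false

namespace Pool.Agent.H886.Exp

open NumberField IsDedekindDomain Pool.Agent.W518.TC Pool.Agent.Q33.SecL

variable {L : Type} [Field L] [NumberField L]

/-- the product of the archimedean absolute values -/
noncomputable def nC (a : L) : ℝ := ∏ σ : L →+* ℂ, ‖σ a‖

lemma nC_mul (a b : L) : nC (a * b) = nC a * nC b := by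
  unfold nC
  rw [← Finset.prod_mul_distrib]
  exact Finset.prod_congr rfl fun σ _ => by rw [map_mul, norm_mul]

lemma nC_one : nC (1 : L) = 1 := by
  unfold nC
  exact Finset.prod_eq_one fun σ _ => by rw [map_one, norm_one]

lemma nC_nonneg (a : L) : 0 ≤ nC a := Finset.prod_nonneg fun _ _ => norm_nonneg _

lemma nC_eq (a : L) : nC a = |((Algebra.norm ℚ a : ℚ) : ℝ)| := by
  have h1 := Algebra.norm_eq_prod_embeddings ℚ ℂ a
  rw [← Fintype.prod_equiv (RingHom.equivRatAlgHom L ℂ) (fun φ => φ a)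
    (fun φ => φ a) (fun φ => rfl)] at h1
  have h2 := congrArg norm h1
  rw [norm_prod] at h2
  unfold nC
  rw [← h2]
  have h3 : algebraMap ℚ ℂ ((Algebra.norm ℚ) a) = (((Algebra.norm ℚ a : ℚ) : ℝ) : ℂ) := by
    simp
  rw [h3, Complex.norm_real, Real.norm_eq_abs]

lemma one_le_nC {a : L} (ha : IsIntegral ℤ a) (h0 : a ≠ 0) : 1 ≤ nC a := by
  have h1 : IsIntegral ℤ (Algebra.norm ℚ a) := Algebra.isIntegral_norm ℚ ha
  obtain ⟨z, hz⟩ := IsIntegrallyClosed.isIntegral_iff.1 h1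
  have hz0 : z ≠ 0 := by
    rintro rfl
    rw [map_zero] at hz
    exact Algebra.norm_ne_zero_iff.2 h0 hz.symm
  rw [nC_eq, ← hz]
  have h2 : (1 : ℤ) ≤ |z| := Int.one_le_abs hz0
  have h3 : ((algebraMap ℤ ℚ z : ℚ) : ℝ) = (z : ℝ) := by simp
  rw [h3]
  exact_mod_cast h2

lemma nC_unit {a : L} (ha : IsIntegral ℤ a) (ha' : IsIntegral ℤ a⁻¹) (h0 : a ≠ 0) : nC a = 1 := by
  have h1 := one_le_nC ha h0
  have h2 := one_le_nC ha' (inv_ne_zero h0)
  have h3 := nC_mul a a⁻¹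
  rw [mul_inv_cancel₀ h0, nC_one] at h3
  nlinarith

/-- a unit that is not a root of unity has an archimedean absolute value greater than one -/
lemma exists_one_lt {ε : L} (hi : IsIntegral ℤ ε) (h0 : ε ≠ 0) (hε : ∀ n : ℕ, 0 < n → ε ^ n ≠ 1) :
    ∃ σ : L →+* ℂ, 1 < ‖σ ε‖ := by
  by_contra hc
  push Not at hc
  have h2 : ∀ σ : L →+* ℂ, ‖σ ε‖ = 1 := by
    intro σ
    apply le_antisymm (hc σ)
    by_contra hlt
    push Not at hlt
    have h3 : nC ε < 1 := by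
      classical
      unfold nC
      rw [← Finset.mul_prod_erase _ _ (Finset.mem_univ σ)]
      have h4 : ∏ σ ∈ Finset.univ.erase σ, ‖σ ε‖ ≤ 1 :=
        Finset.prod_le_one (fun _ _ => norm_nonneg _) fun σ _ => hc σ
      have h5 : (0 : ℝ) < ‖σ ε‖ := norm_pos_iff.2 ((map_ne_zero σ).2 h0)
      nlinarith
    exact absurd (one_le_nC hi h0) (not_le.2 h3)
  obtain ⟨n, hn, hn1⟩ := NumberField.Embeddings.pow_eq_one_of_norm_eq_one L ℂ hi h2
  exact hε n hn hn1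

/-- there is a good exponent in each window -/
lemma window {τ : Type} [Fintype τ] (β : τ → ℂ) (hβ : ∀ t, ‖β t‖ = 1)
    (hβ1 : ∀ t (n : ℕ), 0 < n → β t ^ n ≠ 1) :
    ∃ δ : ℝ, 0 < δ ∧ ∀ a0 : ℕ, ∃ a : ℕ, a0 ≤ a ∧ ∀ t, δ ≤ ‖β t ^ a - 1‖ := by
  classical
  set B := Fintype.card τ + 1 with hB
  obtain ⟨δ, hδ, hδ'⟩ : ∃ δ : ℝ, 0 < δ ∧ ∀ t, ∀ b ∈ Finset.range B, 2 * δ ≤ ‖β t ^ (b + 1) - 1‖ := by
    have hne : (Finset.univ ×ˢ Finset.range B : Finset (τ × ℕ)).Nonempty ∨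
        ¬ (Finset.univ ×ˢ Finset.range B : Finset (τ × ℕ)).Nonempty := em _
    rcases hne with hne | hne
    · obtain ⟨s, hs, hmin⟩ := Finset.exists_min_image _ (fun s : τ × ℕ => ‖β s.1 ^ (s.2 + 1) - 1‖) hne
      refine ⟨‖β s.1 ^ (s.2 + 1) - 1‖ / 2, ?_, fun t b hb => ?_⟩
      · have := hβ1 s.1 (s.2 + 1) (Nat.succ_pos _)
        have : 0 < ‖β s.1 ^ (s.2 + 1) - 1‖ := norm_pos_iff.2 (sub_ne_zero.2 this)
        linarith
      · have := hmin (t, b) (Finset.mem_product.2 ⟨Finset.mem_univ _, hb⟩)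
        simp only at this
        linarith
    · refine ⟨1, one_pos, fun t b hb => ?_⟩
      exact absurd ⟨(t, b), Finset.mem_product.2 ⟨Finset.mem_univ _, hb⟩⟩ hne
  refine ⟨δ, hδ, fun a0 => ?_⟩
  by_contra hc
  push Not at hc
  have h1' : ∀ i, ∃ t, i ∈ Finset.range B → ‖β t ^ (a0 + i) - 1‖ < δ := by
    intro i
    obtain ⟨t, ht⟩ := hc (a0 + i) (Nat.le_add_right _ _)
    exact ⟨t, fun _ => ht⟩
  choose f hf' using h1'
  obtain ⟨i, hi, j, hj, hij, hfij⟩ := Finset.exists_ne_map_eq_of_card_lt_of_maps_to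
    (s := Finset.range B) (t := (Finset.univ : Finset τ)) (f := f)
    (by rw [Finset.card_range, Finset.card_univ]; exact Nat.lt_succ_self _)
    (fun i _ => Finset.mem_univ _)
  have key : ∀ i j : ℕ, i < j → i ∈ Finset.range B → j ∈ Finset.range B → f i = f j → False := by
    intro i j hij hi hj hfij
    obtain ⟨b, rfl⟩ := Nat.exists_eq_add_of_lt hij
    have h2 := hf' i hi
    have h3 := hf' _ hj
    rw [← hfij] at h3
    have h4 := hδ' (f i) b (Finset.mem_range.2 (by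
      have := Finset.mem_range.1 hj
      omega))
    have h5 : β (f i) ^ (a0 + (i + b + 1)) - β (f i) ^ (a0 + i) =
        β (f i) ^ (a0 + i) * (β (f i) ^ (b + 1) - 1) := by
      rw [mul_sub, mul_one, ← pow_add]
      congr 2
      ring
    have h6 : ‖β (f i) ^ (b + 1) - 1‖ = ‖β (f i) ^ (a0 + (i + b + 1)) - β (f i) ^ (a0 + i)‖ := by
      rw [h5, norm_mul, norm_pow, hβ, one_pow, one_mul]
    have h7 : β (f i) ^ (a0 + (i + b + 1)) - β (f i) ^ (a0 + i) =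
      (β (f i) ^ (a0 + (i + b + 1)) - 1) - (β (f i) ^ (a0 + i) - 1) := by ring
    have h8 := norm_sub_le (β (f i) ^ (a0 + (i + b + 1)) - 1) (β (f i) ^ (a0 + i) - 1)
    rw [← h7, ← h6] at h8
    linarith
  rcases lt_or_gt_of_ne hij with h | h
  · exact key i j h hi hj hfij
  · exact key j i h hj hi hfij.symm

/-- **Good moduli.** -/
theorem exists_modulus {ε : L} (hi : IsIntegral ℤ ε) (h0 : ε ≠ 0)
    (hε : ∀ n : ℕ, 0 < n → ε ^ n ≠ 1) :
    ∃ Λ : ℝ, 1 < Λ ∧ ∀ (i J : ℕ) (C : ℝ), ∃ M : ℕ, 0 < M ∧ ∀ j : ℕ, 1 ≤ j → j ≤ J →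
      ∃ k : ℕ, M = j * k ∧ 0 < k ∧ i.factorial ∣ k ∧ C * Λ ^ k < nC (ε ^ k - 1) := by
  classical
  -- the Mahler measure
  set Λ0 : ℝ := ∏ σ : L →+* ℂ, max 1 ‖σ ε‖ with hΛ0
  have hΛ1 : 1 < Λ0 := by
    obtain ⟨σ, hσ⟩ := exists_one_lt hi h0 hε
    rw [hΛ0, ← Finset.mul_prod_erase _ _ (Finset.mem_univ σ)]
    have h1 : 1 ≤ ∏ σ ∈ Finset.univ.erase σ, max 1 ‖σ ε‖ :=
      Finset.one_le_prod (fun σ _ => le_max_left _ _)
    have h2 : 1 < max 1 ‖σ ε‖ := lt_max_of_lt_right hσ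
    nlinarith
  have hs : 1 < Real.sqrt Λ0 := by
    rw [Real.lt_sqrt (by norm_num)]
    simpa using hΛ1
  refine ⟨Real.sqrt Λ0, hs, fun i J C => ?_⟩
  set Λ := Real.sqrt Λ0 with hΛ
  have hΛΛ : Λ0 = Λ * Λ := (Real.mul_self_sqrt (by linarith)).symm
  let τ := {σ : L →+* ℂ // ‖σ ε‖ = 1} × Fin J
  let β : τ → ℂ := fun t => (t.1.1 ε) ^ (i.factorial * (J.factorial / (t.2.1 + 1)))
  have hexp : ∀ j : ℕ, 1 ≤ j → j ≤ J → 0 < i.factorial * (J.factorial / j) := fun j h1 h2 =>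
    Nat.mul_pos (Nat.factorial_pos _) (Nat.div_pos (Nat.le_of_dvd (Nat.factorial_pos _)
      (Nat.dvd_factorial h1 h2)) h1)
  obtain ⟨δ, hδ, hδ'⟩ := window β (fun t => by
      simp only [β]
      rw [norm_pow, t.1.2, one_pow]) (fun t n hn h1 => by
      simp only [β] at h1
      rw [← pow_mul, ← map_pow] at h1
      exact hε _ (Nat.mul_pos (hexp _ (Nat.succ_pos _) t.2.2) hn)
        ((t.1.1).injective (h1.trans (map_one _).symm)))
  let c : (L →+* ℂ) → ℝ := fun σ =>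
    if 1 < ‖σ ε‖ then 1 - 1 / ‖σ ε‖ else if ‖σ ε‖ < 1 then 1 - ‖σ ε‖ else δ
  have hc : ∀ σ, 0 < c σ := by
    intro σ
    simp only [c]
    split_ifs with h1 h2
    · rw [sub_pos, div_lt_one (by linarith)]
      exact h1
    · linarith
    · exact hδ
  have hC : 0 < ∏ σ, c σ := Finset.prod_pos fun σ _ => hc σ
  have hlow : ∀ k : ℕ, 0 < k → (∀ σ : L →+* ℂ, ‖σ ε‖ = 1 → δ ≤ ‖(σ ε) ^ k - 1‖) →
      (∏ σ, c σ) * Λ0 ^ k ≤ nC (ε ^ k - 1) := by
    intro k hk hkδ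
    rw [hΛ0, ← Finset.prod_pow, ← Finset.prod_mul_distrib]
    unfold nC
    refine Finset.prod_le_prod (fun σ _ => mul_nonneg (hc σ).le (by positivity)) fun σ _ => ?_
    rw [map_sub, map_pow, map_one]
    simp only [c]
    split_ifs with h1 h2
    · rw [max_eq_right h1.le]
      have h3 : ‖σ ε‖ ^ k - 1 ≤ ‖(σ ε) ^ k - 1‖ := by
        have := norm_sub_norm_le ((σ ε) ^ k) 1
        rwa [norm_pow, norm_one] at this
      refine le_trans ?_ h3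
      have h4 : (1 : ℝ) ≤ ‖σ ε‖ ^ (k - 1) := one_le_pow₀ h1.le
      have h5 : ‖σ ε‖ ^ k = ‖σ ε‖ ^ (k - 1) * ‖σ ε‖ := by
        rw [← pow_succ, Nat.sub_add_cancel hk]
      have h6 : (0 : ℝ) < ‖σ ε‖ := by linarith
      rw [sub_mul, one_mul]
      have h7 : 1 / ‖σ ε‖ * ‖σ ε‖ ^ k = ‖σ ε‖ ^ (k - 1) := by
        rw [h5]
        field_simp
      rw [h7]
      linarith
    · rw [max_eq_left h2.le, one_pow, mul_one]
      have h3 : 1 - ‖σ ε‖ ^ k ≤ ‖(σ ε) ^ k - 1‖ := by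
        have := norm_sub_norm_le 1 ((σ ε) ^ k)
        rwa [norm_pow, norm_one, norm_sub_rev] at this
      refine le_trans ?_ h3
      have h4 : ‖σ ε‖ ^ k ≤ ‖σ ε‖ := pow_le_of_le_one (norm_nonneg _) h2.le hk.ne'
      linarith
    · have h3 : ‖σ ε‖ = 1 := le_antisymm (not_lt.1 h1) (not_lt.1 h2)
      rw [h3, max_self, one_pow, mul_one]
      exact hkδ σ h3
  obtain ⟨a0, ha0⟩ := pow_unbounded_of_one_lt (C / ∏ σ, c σ) hs
  obtain ⟨a, ha, ha'⟩ := hδ' (a0 + 1)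
  refine ⟨a * (i.factorial * J.factorial), Nat.mul_pos (by omega)
    (Nat.mul_pos (Nat.factorial_pos _) (Nat.factorial_pos _)), fun j h1 h2 => ?_⟩
  have hk : 0 < a * (i.factorial * (J.factorial / j)) := Nat.mul_pos (by omega) (hexp j h1 h2)
  refine ⟨a * (i.factorial * (J.factorial / j)), ?_, hk, ?_, ?_⟩
  · obtain ⟨b, hb⟩ := Nat.dvd_factorial h1 h2
    rw [hb, Nat.mul_div_cancel_left _ h1]
    ring
  · exact Dvd.dvd.mul_left (Dvd.intro _ rfl) a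
  · refine lt_of_lt_of_le ?_ (hlow _ hk ?_)
    · rw [hΛΛ, mul_pow, ← mul_assoc (∏ σ, c σ)]
      have hΛk : 0 < Λ ^ (a * (i.factorial * (J.factorial / j))) := pow_pos (by linarith) _
      refine mul_lt_mul_of_pos_right ?_ hΛk
      rw [div_lt_iff₀ hC] at ha0
      have h3 : Λ ^ a0 ≤ Λ ^ (a * (i.factorial * (J.factorial / j))) := by
        apply pow_le_pow_right₀ hs.le
        have := hexp j h1 h2
        nlinarith
      nlinarith
    · intro σ hσ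
      have h3 := ha' (⟨σ, hσ⟩, ⟨j - 1, by omega⟩)
      simp only [β] at h3
      rw [Nat.sub_add_cancel h1, ← pow_mul, mul_comm _ a] at h3
      exact h3

/-- **The upper bound.** -/
theorem nC_sum_le {ε : L} (h0 : ε ≠ 0) : ∃ B : ℝ, 1 ≤ B ∧ ∀ {ι : Type} (s : Finset ι) (A : ι → L),
    ∃ C : ℝ, 0 ≤ C ∧ ∀ (e : ι → ℤ) (E : ℕ), (∀ a ∈ s, |e a| ≤ E) →
      nC (∑ a ∈ s, A a * ε ^ e a) ≤ C * B ^ E := by
  classical
  set B0 : ℝ := ∏ σ : L →+* ℂ, max 1 (max ‖σ ε‖ ‖σ ε‖⁻¹) with hB0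
  have hB1 : ∀ σ : L →+* ℂ, (1 : ℝ) ≤ max 1 (max ‖σ ε‖ ‖σ ε‖⁻¹) := fun σ => le_max_left _ _
  refine ⟨B0, ?_, ?_⟩
  · rw [hB0]
    exact Finset.one_le_prod (fun σ _ => hB1 σ)
  intro ι s A
  refine ⟨∏ σ : L →+* ℂ, ∑ a ∈ s, ‖σ (A a)‖, Finset.prod_nonneg fun σ _ =>
    Finset.sum_nonneg fun a _ => norm_nonneg _, fun e E he => ?_⟩
  rw [hB0, ← Finset.prod_pow, ← Finset.prod_mul_distrib]
  unfold nC
  refine Finset.prod_le_prod (fun σ _ => norm_nonneg _) fun σ _ => ?_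
  rw [map_sum, Finset.sum_mul]
  refine (norm_sum_le _ _).trans (Finset.sum_le_sum fun a ha => ?_)
  rw [map_mul, norm_mul, map_zpow₀, norm_zpow]
  refine mul_le_mul_of_nonneg_left ?_ (norm_nonneg _)
  have hσ : 0 < ‖σ ε‖ := norm_pos_iff.2 ((map_ne_zero σ).2 h0)
  have h1 := he a ha
  set b : ℝ := max 1 (max ‖σ ε‖ ‖σ ε‖⁻¹) with hb
  have hb1 : 1 ≤ b := hB1 σ
  have hb2 : ‖σ ε‖ ≤ b := (le_max_left _ _).trans (le_max_right _ _)
  have hb3 : ‖σ ε‖⁻¹ ≤ b := (le_max_right _ _).trans (le_max_right _ _)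
  obtain ⟨m, hm | hm⟩ := Int.eq_nat_or_neg (e a)
  · rw [hm, zpow_natCast]
    rw [hm] at h1
    have h2 : m ≤ E := by
      rw [Nat.abs_cast] at h1
      exact_mod_cast h1
    exact (pow_le_pow_left₀ hσ.le hb2 m).trans (pow_le_pow_right₀ hb1 h2)
  · rw [hm, zpow_neg, zpow_natCast, ← inv_pow]
    rw [hm] at h1
    have h2 : m ≤ E := by
      rw [abs_neg, Nat.abs_cast] at h1
      exact_mod_cast h1
    exact (pow_le_pow_left₀ (inv_nonneg.2 hσ.le) hb3 m).trans (pow_le_pow_right₀ hb1 h2)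

/-- **The gap lemma.** -/
theorem gap_lemma {ε : L} (hi : IsIntegral ℤ ε) (hi' : IsIntegral ℤ ε⁻¹) (h0 : ε ≠ 0)
    (hε : ∀ n : ℕ, 0 < n → ε ^ n ≠ 1) {ι : Type} (s : Finset ι) (A : ι → L) (D : ℕ) (hD : 0 < D)
    (hDA : ∀ a ∈ s, IsIntegral ℤ (D * A a)) :
    ∃ R : ℕ, ∀ R' : ℕ, R ≤ R' → ∀ e : ι → ℤ, ∑ a ∈ s, A a * ε ^ e a = 0 → ∀ E : ℤ,
      (∀ a ∈ s, ¬ (E < e a ∧ e a ≤ E + R')) → ∑ a ∈ s.filter (fun a => e a ≤ E), A a * ε ^ e a = 0 := by
  classical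
  have hx : ∀ σ : L →+* ℂ, 0 < ‖σ ε‖ := fun σ => norm_pos_iff.2 ((map_ne_zero σ).2 h0)
  set lam : ℝ := ∏ σ : L →+* ℂ, min 1 ‖σ ε‖ with hlam
  have hlam0 : 0 < lam := Finset.prod_pos fun σ _ => lt_min one_pos (hx σ)
  have hlam1 : lam < 1 := by
    obtain ⟨σ, hσ⟩ := exists_one_lt hi' (inv_ne_zero h0) (fun n hn h => hε n hn (by
      rw [inv_pow] at h
      exact inv_eq_one.1 h))
    rw [map_inv₀, norm_inv] at hσ
    have h2 : ‖σ ε‖ < 1 := by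
      have := (one_lt_inv₀ (hx σ)).1 hσ
      exact this
    rw [hlam, ← Finset.mul_prod_erase _ _ (Finset.mem_univ σ)]
    have h4 : ∏ σ ∈ Finset.univ.erase σ, min 1 ‖σ ε‖ ≤ 1 :=
      Finset.prod_le_one (fun σ _ => le_min zero_le_one (norm_nonneg _)) fun σ _ => min_le_left _ _
    have h5 : min 1 ‖σ ε‖ < 1 := min_lt_of_right_lt h2
    have h6 : 0 < min 1 ‖σ ε‖ := lt_min one_pos (hx σ)
    nlinarith
  set C : ℝ := nC (D : L) * ∏ σ : L →+* ℂ, ∑ a ∈ s, ‖σ (A a)‖ with hC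
  have hC0 : 0 ≤ C := mul_nonneg (nC_nonneg _) (Finset.prod_nonneg fun σ _ =>
    Finset.sum_nonneg fun a _ => norm_nonneg _)
  obtain ⟨R, hR⟩ := exists_pow_lt_of_lt_one (x := 1 / (C + 1)) (by positivity) hlam1
  refine ⟨R, fun R' hRR' e hsum E hgap => ?_⟩
  by_contra hS
  set S := ∑ a ∈ s.filter (fun a => e a ≤ E), A a * ε ^ e a with hSdef
  have hεint : ∀ z : ℤ, IsIntegral ℤ (ε ^ z) := by
    intro z
    obtain ⟨m, hm | hm⟩ := Int.eq_nat_or_neg z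
    · rw [hm, zpow_natCast]
      exact hi.pow m
    · rw [hm, zpow_neg, zpow_natCast, ← inv_pow]
      exact hi'.pow m
  have hDS : IsIntegral ℤ ((D : L) * S) := by
    rw [hSdef, Finset.mul_sum]
    refine IsIntegral.sum _ fun a ha => ?_
    rw [← mul_assoc]
    exact (hDA a (Finset.mem_filter.1 ha).1).mul (hεint _)
  have hD0 : (D : L) ≠ 0 := by exact_mod_cast hD.ne'
  have h1 := one_le_nC hDS (mul_ne_zero hD0 hS)
  rw [nC_mul] at h1
  have hσ : ∀ σ : L →+* ℂ, ‖σ S‖ ≤ (∑ a ∈ s, ‖σ (A a)‖) * (‖σ ε‖ ^ E * (min 1 ‖σ ε‖) ^ R') := by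
    intro σ
    have key : ∀ (t : Finset ι), t ⊆ s → ∀ b : ℝ, (∀ a ∈ t, ‖σ ε‖ ^ e a ≤ b) → 0 ≤ b →
        ‖σ (∑ a ∈ t, A a * ε ^ e a)‖ ≤ (∑ a ∈ s, ‖σ (A a)‖) * b := by
      intro t ht b hb hb0
      rw [map_sum]
      calc ‖∑ a ∈ t, σ (A a * ε ^ e a)‖ ≤ ∑ a ∈ t, ‖σ (A a * ε ^ e a)‖ := norm_sum_le _ _
        _ ≤ ∑ a ∈ t, ‖σ (A a)‖ * b := by
            refine Finset.sum_le_sum fun a ha => ?_
            rw [map_mul, norm_mul, map_zpow₀, norm_zpow]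
            exact mul_le_mul_of_nonneg_left (hb a ha) (norm_nonneg _)
        _ = (∑ a ∈ t, ‖σ (A a)‖) * b := (Finset.sum_mul _ _ _).symm
        _ ≤ (∑ a ∈ s, ‖σ (A a)‖) * b := by
            refine mul_le_mul_of_nonneg_right (Finset.sum_le_sum_of_subset_of_nonneg ht
              fun a _ _ => norm_nonneg _) hb0
    rcases le_or_gt 1 ‖σ ε‖ with hge | hlt
    · rw [min_eq_left hge, one_pow, mul_one]
      refine key _ (Finset.filter_subset _ _) _ (fun a ha => ?_) (by positivity)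
      exact zpow_le_zpow_right₀ hge (Finset.mem_filter.1 ha).2
    · rw [min_eq_right hlt.le]
      have h2 : S = -∑ a ∈ s.filter (fun a => ¬ e a ≤ E), A a * ε ^ e a := by
        rw [← Finset.sum_filter_add_sum_filter_not s (fun a => e a ≤ E)] at hsum
        exact eq_neg_of_add_eq_zero_left hsum
      rw [h2, map_neg, norm_neg]
      refine key _ (Finset.filter_subset _ _) _ (fun a ha => ?_) (by positivity)
      obtain ⟨ha1, ha2⟩ := Finset.mem_filter.1 ha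
      have h3 := hgap a ha1
      push Not at ha2
      have h4 : E + R' ≤ e a := by
        by_contra hc
        exact h3 ⟨ha2, by omega⟩
      rw [← zpow_natCast, ← zpow_add₀ (hx σ).ne']
      exact zpow_le_zpow_right_of_le_one₀ (hx σ) hlt.le h4
  have h2 : nC S ≤ (∏ σ : L →+* ℂ, ∑ a ∈ s, ‖σ (A a)‖) * lam ^ R' := by
    calc nC S ≤ ∏ σ : L →+* ℂ, ((∑ a ∈ s, ‖σ (A a)‖) * (‖σ ε‖ ^ E * (min 1 ‖σ ε‖) ^ R')) :=
          Finset.prod_le_prod (fun σ _ => norm_nonneg _) fun σ _ => hσ σ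
      _ = (∏ σ : L →+* ℂ, ∑ a ∈ s, ‖σ (A a)‖) * ((∏ σ : L →+* ℂ, ‖σ ε‖) ^ E * lam ^ R') := by
          rw [Finset.prod_mul_distrib, Finset.prod_mul_distrib, Finset.prod_zpow, Finset.prod_pow]
      _ = _ := by
          have h3 : ∏ σ : L →+* ℂ, ‖σ ε‖ = 1 := nC_unit hi hi' h0
          rw [h3, one_zpow, one_mul]
  have h3 : lam ^ R' ≤ lam ^ R := pow_le_pow_of_le_one hlam0.le hlam1.le hRR'
  have h4 : nC (D : L) * nC S ≤ C * lam ^ R := by
    calc nC (D : L) * nC S ≤ nC (D : L) * ((∏ σ : L →+* ℂ, ∑ a ∈ s, ‖σ (A a)‖) * lam ^ R') :=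
          mul_le_mul_of_nonneg_left h2 (nC_nonneg _)
      _ = C * lam ^ R' := by rw [hC]; ring
      _ ≤ C * lam ^ R := mul_le_mul_of_nonneg_left h3 hC0
  have h5 : C * lam ^ R < 1 := by
    rw [lt_div_iff₀ (by positivity)] at hR
    have : 0 < lam ^ R := by positivity
    nlinarith
  linarith

end Pool.Agent.H886.Exp
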