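import Mathlib

/-!
# Sums over clusters
-/

set_option autoImplicit false
set_option linter.unusedSectionVars false

namespace Pool.Agent.H886.Exp

/-- **The cluster lemma.** If all partial sums up to a gap of length `R` vanish, then so do the sums
over the fibres of a function that is constant on clusters. -/
theorem cluster {ι M : Type} [AddCommGroup M] (R : ℕ) (e g : ι → ℤ) (f : ι → M) :
    ∀ (n : ℕ) (s : Finset ι), s.card ≤ n →
      (∀ E : ℤ, (∀ a ∈ s, ¬ (E < e a ∧ e a ≤ E + R)) → ∑ a ∈ s.filter (fun a => e a ≤ E), f a = 0) →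
      (∀ a ∈ s, ∀ b ∈ s, |e a - e b| ≤ R → g a = g b) →
      ∀ c : ℤ, ∑ a ∈ s.filter (fun a => g a = c), f a = 0 := by
  classical
  intro n
  induction n with
  | zero =>
    intro s hs _ _ c
    rw [Finset.card_eq_zero.1 (Nat.le_zero.1 hs)]
    simp
  | succ n ih =>
    intro s hs hgap hg c
    rcases s.eq_empty_or_nonempty with rfl | hne
    · simp
    obtain ⟨t, ht, hmax⟩ := Finset.exists_max_image s e hne
    -- the elements which are separated from the top by a gap
    set s' := s.filter (fun a => ∃ E : ℤ, (∀ b ∈ s, ¬ (E < e b ∧ e b ≤ E + R)) ∧ e a ≤ E ∧ E < e t)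
      with hs'
    have hss : s' ⊆ s := Finset.filter_subset _ _
    have hts' : t ∉ s' := by
      intro h
      obtain ⟨-, E, -, h1, h2⟩ := Finset.mem_filter.1 h
      omega
    have htotal : ∑ a ∈ s, f a = 0 := by
      have h1 := hgap (e t) (fun a ha h => absurd (hmax a ha) (not_le.2 h.1))
      rwa [Finset.filter_true_of_mem (fun a ha => hmax a ha)] at h1
    have hs'total : ∑ a ∈ s', f a = 0 ∧ (∀ E : ℤ, (∀ a ∈ s', ¬ (E < e a ∧ e a ≤ E + R)) →
        ∑ a ∈ s'.filter (fun a => e a ≤ E), f a = 0) := by
      rcases s'.eq_empty_or_nonempty with he | hne'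
      · rw [he]
        simp
      obtain ⟨u, hu, humax⟩ := Finset.exists_max_image s' e hne'
      obtain ⟨hus, E0, hE0, huE0, hE0t⟩ := Finset.mem_filter.1 hu
      have hs'eq : s' = s.filter (fun a => e a ≤ E0) := by
        ext a
        constructor
        · intro ha
          exact Finset.mem_filter.2 ⟨hss ha, (humax a ha).trans huE0⟩
        · intro ha
          obtain ⟨h1, h2⟩ := Finset.mem_filter.1 ha
          exact Finset.mem_filter.2 ⟨h1, E0, hE0, h2, hE0t⟩
      have h0 : ∑ a ∈ s', f a = 0 := by
        rw [hs'eq]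
        exact hgap E0 hE0
      refine ⟨h0, fun E hE => ?_⟩
      rcases le_or_gt (e u) E with huE | huE
      · rw [Finset.filter_true_of_mem (fun a ha => (humax a ha).trans huE)]
        exact h0
      · have h1 : E + R < e u := by
          by_contra hc
          exact hE u hu ⟨huE, by omega⟩
        have h2 : s'.filter (fun a => e a ≤ E) = s.filter (fun a => e a ≤ E) := by
          ext a
          constructor
          · intro h
            obtain ⟨h3, h4⟩ := Finset.mem_filter.1 h
            exact Finset.mem_filter.2 ⟨hss h3, h4⟩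
          · intro h
            obtain ⟨h3, h4⟩ := Finset.mem_filter.1 h
            refine Finset.mem_filter.2 ⟨?_, h4⟩
            rw [hs'eq]
            exact Finset.mem_filter.2 ⟨h3, by omega⟩
        rw [h2]
        refine hgap E fun a ha h => ?_
        apply hE a _ h
        rw [hs'eq, Finset.mem_filter]
        exact ⟨ha, by omega⟩
    have hcard : s'.card ≤ n := by
      have : s'.card < s.card := Finset.card_lt_card
        ⟨hss, fun h => hts' (h ht)⟩
      omega
    have h1 := ih s' hcard hs'total.2 (fun a ha b hb => hg a (hss ha) b (hss hb)) c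
    -- `g` is constant on the top cluster
    have htop : ∀ m : ℕ, ∀ a ∈ s, a ∉ s' → e t - e a ≤ m → g a = g t := by
      intro m
      induction m with
      | zero =>
        intro a ha _ h
        apply hg a ha t ht
        have := hmax a ha
        rw [abs_le]
        constructor <;> omega
      | succ m ihm =>
        intro a ha ha' h
        by_cases hat : e a = e t
        · apply hg a ha t ht
          rw [hat, sub_self, abs_zero]
          positivity
        have h2 := hmax a ha
        have h3 : ∃ b ∈ s, e a < e b ∧ e b ≤ e a + R := by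
          by_contra hc
          push Not at hc
          apply ha'
          exact Finset.mem_filter.2 ⟨ha, e a, fun b hb h => absurd h.2 (not_le.2 (hc b hb h.1)),
            le_rfl, by omega⟩
        obtain ⟨b, hb, h4, h5⟩ := h3
        have hb' : b ∉ s' := by
          intro h6
          obtain ⟨-, E, h7, h8, h9⟩ := Finset.mem_filter.1 h6
          exact ha' (Finset.mem_filter.2 ⟨ha, E, h7, by omega, h9⟩)
        rw [hg a ha b hb (by rw [abs_le]; constructor <;> omega)]
        exact ihm b hb hb' (by omega)
    have hdiff : ∑ a ∈ s \ s', f a = 0 := by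
      have := Finset.sum_sdiff (f := f) hss
      rw [hs'total.1, add_zero, htotal] at this
      exact this
    have h2 : s.filter (fun a => g a = c) =
        s'.filter (fun a => g a = c) ∪ (s \ s').filter (fun a => g a = c) := by
      rw [← Finset.filter_union, Finset.union_sdiff_of_subset hss]
    rw [h2, Finset.sum_union, h1, zero_add]
    · by_cases hc : g t = c
      · rw [Finset.filter_true_of_mem, hdiff]
        intro a ha
        obtain ⟨h3, h4⟩ := Finset.mem_sdiff.1 ha
        rw [← hc]
        exact htop (e t - e a).toNat a h3 h4 (Int.self_le_toNat _)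
      · rw [Finset.filter_false_of_mem, Finset.sum_empty]
        intro a ha
        obtain ⟨h3, h4⟩ := Finset.mem_sdiff.1 ha
        rw [htop (e t - e a).toNat a h3 h4 (Int.self_le_toNat _)]
        exact hc
    · exact Finset.disjoint_filter_filter Finset.disjoint_sdiff

/-- the exponent of a monomial -/
def ex {ι : Type} [Fintype ι] (m : ι → ℤ) (a : ι →₀ ℕ) : ℤ := ∑ i, (a i : ℤ) * m i

lemma ex_sub {ι : Type} [Fintype ι] (m m' : ι → ℤ) (a : ι →₀ ℕ) :
    ex (m' - m) a = ex m' a - ex m a := by
  unfold ex
  rw [← Finset.sum_sub_distrib]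
  exact Finset.sum_congr rfl fun i _ => by rw [Pi.sub_apply]; ring

/-- **Pigeonhole**: among infinitely many tuples of exponents there are two with the same clusters. -/
theorem exists_pair {ι : Type} [Fintype ι] (S : Set (ι → ℤ)) (hS : S.Infinite) (R : ℕ)
    (s : Finset (ι →₀ ℕ)) : ∃ m ∈ S, ∃ w : ι → ℤ, w ≠ 0 ∧
      ∀ a ∈ s, ∀ b ∈ s, |ex m a - ex m b| ≤ R → ex w a = ex w b := by
  classical
  let τ := {a // a ∈ s} × {a // a ∈ s} → Fin (2 * R + 3)
  let cl : ℤ → Fin (2 * R + 3) := fun z =>
    ⟨(max 0 (min (z + R + 1) (2 * R + 2))).toNat, by omega⟩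
  have hcl : ∀ z z' : ℤ, |z| ≤ R → cl z = cl z' → z = z' := by
    intro z z' hz h
    simp only [cl, Fin.mk.injEq] at h
    rw [abs_le] at hz
    omega
  let F : (ι → ℤ) → τ := fun m ab => cl (ex m ab.1 - ex m ab.2)
  obtain ⟨m, hm, m', hm', hne, hF⟩ := Set.Infinite.exists_ne_map_eq_of_mapsTo
    (s := S) (t := (Set.univ : Set τ)) (f := F) hS (fun _ _ => Set.mem_univ _) Set.finite_univ
  refine ⟨m, hm, m' - m, sub_ne_zero.2 hne.symm, fun a ha b hb hab => ?_⟩
  have h1 : cl (ex m a - ex m b) = cl (ex m' a - ex m' b) :=
    congrFun hF (⟨a, ha⟩, ⟨b, hb⟩)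
  have h2 := hcl _ _ hab h1
  rw [ex_sub, ex_sub]
  omega

end Pool.Agent.H886.Exp
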