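import Pool.Agent.H886.Exp.Arch
import Pool.Agent.H886.Exp.Comb
import Pool.Graph.R_seed8.TH954.Dir

/-!
# The exponential local-global principle for units of rank one
-/

set_option autoImplicit false
set_option linter.unusedSectionVars false

namespace Pool.Agent.H886.Exp

open NumberField IsDedekindDomain Pool.Agent.W518.TC Pool.Agent.Q33.SecL

variable {L : Type} [Field L] [NumberField L]

section ultra

variable {p : ℕ} [Fact p.Prime]

/-- the elements near `1` form a group -/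
lemma near_mul {v w : PadicAlgCl p} {r : ℝ} (hv : ‖v‖ = 1) (h1 : ‖v - 1‖ ≤ r) (h2 : ‖w - 1‖ ≤ r) :
    ‖v * w - 1‖ ≤ r := by
  have e : v * w - 1 = v * (w - 1) + (v - 1) := by ring
  rw [e]
  refine (IsUltrametricDist.norm_add_le_max _ _).trans (max_le ?_ h1)
  rw [norm_mul, hv, one_mul]
  exact h2

lemma near_pow {v : PadicAlgCl p} {r : ℝ} (hr : 0 ≤ r) (hv : ‖v‖ = 1) (h1 : ‖v - 1‖ ≤ r) (n : ℕ) :
    ‖v ^ n - 1‖ ≤ r := by
  induction n with
  | zero => simpa using hr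
  | succ n ih =>
    rw [pow_succ]
    exact near_mul (by rw [norm_pow, hv, one_pow]) ih h1

lemma near_inv {v : PadicAlgCl p} {r : ℝ} (hv : ‖v‖ = 1) (h1 : ‖v - 1‖ ≤ r) :
    ‖v⁻¹ - 1‖ ≤ r := by
  have h0 : v ≠ 0 := by
    rintro rfl
    simp at hv
  have e : v⁻¹ - 1 = -(v⁻¹ * (v - 1)) := by
    field_simp
    ring
  rw [e, norm_neg, norm_mul, norm_inv, hv, inv_one, one_mul]
  exact h1

lemma near_zpow {v : PadicAlgCl p} {r : ℝ} (hr : 0 ≤ r) (hv : ‖v‖ = 1) (h1 : ‖v - 1‖ ≤ r) (n : ℤ) :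
    ‖v ^ n - 1‖ ≤ r := by
  obtain ⟨m, hm | hm⟩ := Int.eq_nat_or_neg n
  · rw [hm, zpow_natCast]
    exact near_pow hr hv h1 m
  · rw [hm, zpow_neg, zpow_natCast]
    exact near_inv (by rw [norm_pow, hv, one_pow]) (near_pow hr hv h1 m)

lemma norm_eq_one_of_near {v : PadicAlgCl p} {r : ℝ} (hr : r ≤ 1) (h1 : ‖v - 1‖ ≤ r) (h : v ≠ 0)
    (h2 : ‖v⁻¹ - 1‖ ≤ r) : ‖v‖ = 1 := by
  have key : ∀ u : PadicAlgCl p, ‖u - 1‖ ≤ r → ‖u‖ ≤ 1 := by
    intro u hu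
    have e : u = (u - 1) + 1 := by ring
    rw [e]
    exact (IsUltrametricDist.norm_add_le_max _ _).trans (max_le (hu.trans hr) norm_one.le)
  apply le_antisymm (key v h1)
  have h3 := key _ h2
  rw [norm_inv] at h3
  exact (inv_le_one₀ (norm_pos_iff.2 h)).1 h3

lemma near_prod {ι : Type} (s : Finset ι) {v : ι → PadicAlgCl p} {r : ℝ} (hr : 0 ≤ r)
    (hv : ∀ i, ‖v i‖ = 1) (h1 : ∀ i, ‖v i - 1‖ ≤ r) (a : ι → ℕ) : ‖∏ i ∈ s, v i ^ a i - 1‖ ≤ r := by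
  classical
  induction s using Finset.induction_on with
  | empty => simpa using hr
  | insert i s hi ih =>
    rw [Finset.prod_insert hi]
    exact near_mul (by rw [norm_pow, hv, one_pow]) (near_pow hr (hv i) (h1 i) _) ih

end ultra

/-- an integral element is a unit at almost all places -/
lemma exists_unit_away {a : L} (ha : IsIntegral ℤ a) (h0 : a ≠ 0) :
    ∃ D : ℕ, 0 < D ∧ ∀ (p : ℕ) [Fact p.Prime] (μ : L →+* PadicAlgCl p), ¬ p ∣ D → ‖μ a‖ = 1 := by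
  classical
  obtain ⟨z, hz⟩ := IsIntegrallyClosed.isIntegral_iff.1 (Algebra.isIntegral_norm ℚ ha)
  have hz0 : z ≠ 0 := by
    rintro rfl
    rw [map_zero] at hz
    exact Algebra.norm_ne_zero_iff.2 h0 hz.symm
  refine ⟨z.natAbs, Int.natAbs_pos.2 hz0, fun p _ μ hp => ?_⟩
  have h1 := norm_prod_emb (p := p) a
  rw [← hz] at h1
  have h2 : ‖(((algebraMap ℤ ℚ z : ℚ)) : PadicAlgCl p)‖ = 1 := by
    rw [norm_rat_prime]
    have h3 : (((algebraMap ℤ ℚ z : ℚ)) : ℚ_[p]) = (z : ℚ_[p]) := by simp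
    rw [h3]
    have h4 : ¬ (p : ℤ) ∣ z := fun h => hp (by
      have := Int.natAbs_dvd_natAbs.2 h
      rwa [Int.natAbs_natCast] at this)
    apply le_antisymm (Padic.norm_int_le_one z)
    by_contra hlt
    push Not at hlt
    exact h4 (Padic.norm_intCast_lt_one_iff.1 hlt)
  rw [← h1, norm_prod] at h2
  have h3 : ∀ μ : L →+* PadicAlgCl p, ‖μ a‖ ≤ 1 := fun μ => norm_integral_le μ ha
  apply le_antisymm (h3 μ)
  by_contra hlt
  push Not at hlt
  rw [← Finset.mul_prod_erase _ _ (Finset.mem_univ μ)] at h2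
  have h4 : ∏ μ ∈ Finset.univ.erase μ, ‖μ a‖ ≤ 1 :=
    Finset.prod_le_one (fun _ _ => norm_nonneg _) fun μ _ => h3 μ
  have h5 : (0 : ℝ) < ‖μ a‖ := norm_pos_iff.2 ((map_ne_zero μ).2 h0)
  nlinarith

/-- common denominators -/
lemma exists_den {ι : Type} (s : Finset ι) (f : ι → L) :
    ∃ D : ℕ, 0 < D ∧ ∀ a ∈ s, IsIntegral ℤ ((D : L) * f a) := by
  classical
  obtain ⟨y, hy, h⟩ := exists_integral_multiples ℤ ℚ (L := L) (s.image f)
  refine ⟨y.natAbs, Int.natAbs_pos.2 hy, fun a ha => ?_⟩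
  have h1 := h (f a) (Finset.mem_image_of_mem f ha)
  rw [zsmul_eq_mul] at h1
  have h2 : ((y.natAbs : ℕ) : L) = ((y.natAbs : ℤ) : L) := (Int.cast_natCast _).symm
  rw [h2]
  rcases Int.natAbs_eq y with h3 | h3
  · rw [← h3]
    exact h1
  · have h4 : (y.natAbs : ℤ) = -y := by omega
    rw [h4, Int.cast_neg, neg_mul]
    exact h1.neg

section core

variable {ι : Type} [Fintype ι]

/-- Adelic numbers `Y i` in the closure of finitely many cosets of the group generated by the unit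
`ε`. -/
structure Dta (Mf : ∀ (p : ℕ) [Fact p.Prime], IntermediateField ℚ_[p] (PadicAlgCl p)) (ε : L)
    (Z : ι → Finset L)
    (Y : ι → ∀ (p : ℕ) [Fact p.Prime], (L →+* PadicAlgCl p) → PadicAlgCl p) : Prop where
  hMf : ∀ (p : ℕ) [Fact p.Prime], FiniteDimensional ℚ_[p] (Mf p)
  hMμ : ∀ (p : ℕ) [Fact p.Prime] (μ : L →+* PadicAlgCl p) (x : L), μ x ∈ Mf p
  hi : IsIntegral ℤ ε
  hi' : IsIntegral ℤ ε⁻¹
  h0 : ε ≠ 0
  hZ : ∀ i, ∀ P ∈ Z i, P ≠ 0
  hY : ∀ k : ℕ, ∃ P : ι → L, (∀ i, P i ∈ Z i) ∧ ∃ n : ι → ℤ,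
    ∀ (p : ℕ) [Fact p.Prime] (μ : L →+* PadicAlgCl p) (i : ι),
      ∃ w ∈ Mf p, ‖w‖ = 1 ∧ Y i p μ = μ (P i * ε ^ n i) * w ^ k.factorial

variable {Mf : ∀ (p : ℕ) [Fact p.Prime], IntermediateField ℚ_[p] (PadicAlgCl p)} {ε : L}
    {Z : ι → Finset L}
    {Y : ι → ∀ (p : ℕ) [Fact p.Prime], (L →+* PadicAlgCl p) → PadicAlgCl p}

/-- `Y` is congruent to `P ε^m` modulo `ε^k - 1` -/
def Approx (ε : L) (Y : ι → ∀ (p : ℕ) [Fact p.Prime], (L →+* PadicAlgCl p) → PadicAlgCl p)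
    (P : ι → L) (m : ι → ℤ) (k : ℕ) : Prop :=
  ∀ (p : ℕ) [Fact p.Prime] (μ : L →+* PadicAlgCl p) (i : ι), ∃ v : PadicAlgCl p,
    ‖v‖ = 1 ∧ ‖v - 1‖ ≤ ‖μ (ε ^ k - 1)‖ ∧ Y i p μ = μ (P i * ε ^ m i) * v

lemma norm_unit (hi : IsIntegral ℤ ε) (hi' : IsIntegral ℤ ε⁻¹) (h0 : ε ≠ 0) {p : ℕ}
    [Fact p.Prime] (μ : L →+* PadicAlgCl p) : ‖μ ε‖ = 1 := by
  apply le_antisymm (norm_integral_le μ hi)
  have h1 := norm_integral_le μ hi'
  rw [map_inv₀, norm_inv] at h1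
  exact (inv_le_one₀ (norm_pos_iff.2 ((map_ne_zero μ).2 h0))).1 h1

lemma Dta.approx (h : Dta Mf ε Z Y) (hε : ∀ n : ℕ, 0 < n → ε ^ n ≠ 1) {M : ℕ} (hM : 0 < M) :
    ∃ P : ι → L, (∀ i, P i ∈ Z i) ∧ ∃ n : ι → ℤ, Approx ε Y P n M := by
  classical
  have ha0 : ε ^ M - 1 ≠ 0 := sub_ne_zero.2 (hε M hM)
  have hai : IsIntegral ℤ (ε ^ M - 1) := (h.hi.pow M).sub isIntegral_one
  obtain ⟨D, hD, hDu⟩ := exists_unit_away hai ha0
  have hq : ∀ p : ℕ, ∃ q : ℕ, ∀ (hp : Fact p.Prime) (μ : L →+* PadicAlgCl p) (w : PadicAlgCl p),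
      w ∈ Mf p → ‖w‖ = 1 → ‖w ^ q.factorial - 1‖ < ‖μ (ε ^ M - 1)‖ := by
    intro p
    by_cases hp : p.Prime
    · have : Fact p.Prime := ⟨hp⟩
      obtain ⟨μ0, -, hμ0⟩ := Finset.exists_min_image (Finset.univ : Finset (L →+* PadicAlgCl p))
        (fun μ => ‖μ (ε ^ M - 1)‖) Finset.univ_nonempty
      obtain ⟨q, hq⟩ := exists_pow_near (Mf p) (h.hMf p)
        (norm_pos_iff.2 ((map_ne_zero μ0).2 ha0))
      exact ⟨q, fun _ μ w hw hw1 => lt_of_lt_of_le (hq w hw hw1) (hμ0 μ (Finset.mem_univ _))⟩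
    · exact ⟨0, fun hp' => absurd hp'.out hp⟩
  choose q hq using hq
  obtain ⟨P, hP, n, hn⟩ := h.hY (D.primeFactors.sup q)
  refine ⟨P, hP, n, fun p _ μ i => ?_⟩
  obtain ⟨w, hw, hw1, hw'⟩ := hn p μ i
  refine ⟨w ^ (D.primeFactors.sup q).factorial, by rw [norm_pow, hw1, one_pow], ?_, hw'⟩
  by_cases hpD : p ∣ D
  · have h1 : q p ≤ D.primeFactors.sup q :=
      Finset.le_sup (Nat.mem_primeFactors.2 ⟨Fact.out, hpD, hD.ne'⟩)
    obtain ⟨m, hm⟩ := Nat.factorial_dvd_factorial h1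
    rw [hm, pow_mul]
    exact (norm_pow_sub_one (by rw [norm_pow, hw1, one_pow]) (hq p _ μ w hw hw1) m).le
  · rw [hDu p μ hpD]
    rw [sub_eq_add_neg]
    refine (IsUltrametricDist.norm_add_le_max _ _).trans (max_le ?_ ?_)
    · rw [norm_pow, hw1, one_pow]
    · rw [norm_neg, norm_one]

lemma Approx.reduce (h : Dta Mf ε Z Y) {P : ι → L} {n : ι → ℤ} {M : ℕ} (ha : Approx ε Y P n M)
    {k : ℕ} (hk : k ∣ M) (b : ι → ℤ) : Approx ε Y P (fun i => n i - b i * k) k := by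
  intro p _ μ i
  obtain ⟨v, hv1, hv2, hv3⟩ := ha p μ i
  have hε1 := norm_unit h.hi h.hi' h.h0 μ
  have hεk : ‖(μ ε) ^ k‖ = 1 := by rw [norm_pow, hε1, one_pow]
  have e1 : μ (ε ^ k - 1) = (μ ε) ^ k - 1 := by rw [map_sub, map_pow, map_one]
  have h1 : ‖μ (ε ^ M - 1)‖ ≤ ‖μ (ε ^ k - 1)‖ := by
    obtain ⟨c, rfl⟩ := hk
    rw [e1, map_sub, map_pow, map_one, pow_mul]
    exact near_pow (norm_nonneg _) hεk le_rfl c
  refine ⟨((μ ε) ^ k) ^ (b i) * v, ?_, ?_, ?_⟩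
  · rw [norm_mul, norm_zpow, hεk, one_zpow, hv1, one_mul]
  · refine near_mul (by rw [norm_zpow, hεk, one_zpow]) ?_ (hv2.trans h1)
    rw [e1]
    exact near_zpow (norm_nonneg _) hεk le_rfl _
  · rw [hv3, map_mul, map_mul, map_zpow₀, map_zpow₀]
    have h2 : μ ε ≠ 0 := (map_ne_zero μ).2 h.h0
    have h3 : (μ ε) ^ n i = (μ ε) ^ (n i - b i * k) * ((μ ε) ^ k) ^ (b i) := by
      rw [← zpow_natCast, ← zpow_mul, ← zpow_add₀ h2]
      congr 1
      ring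
    rw [h3]
    ring

/-- small exponents -/
lemma Dta.small (h : Dta Mf ε Z Y) (hε : ∀ n : ℕ, 0 < n → ε ^ n ≠ 1) :
    ∃ Λ : ℝ, 1 < Λ ∧ ∀ (T : ℕ) (C : ℝ) (i : ℕ), 0 < T → ∃ P : ι → L, (∀ l, P l ∈ Z l) ∧
      ∃ (m : ι → ℤ) (k : ℕ), 0 < k ∧ i.factorial ∣ k ∧ C * Λ ^ k < nC (ε ^ k - 1) ∧
        (∀ l, (T : ℤ) * |m l| ≤ k) ∧ Approx ε Y P m k := by
  obtain ⟨Λ, hΛ, H⟩ := exists_modulus h.hi h.h0 hε
  refine ⟨Λ, hΛ, fun T C i hT => ?_⟩
  obtain ⟨M, hM, hM'⟩ := H i (T ^ Fintype.card ι) C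
  obtain ⟨P, hP, n, hn⟩ := h.approx hε hM
  obtain ⟨j, hj1, hj2, c, hc⟩ := Pool.Agent.TH954.dirichlet T hT n M hM
  obtain ⟨k, hk, hk0, hik, hCk⟩ := hM' j hj1 hj2
  refine ⟨P, hP, fun l => n l - c l * k, k, hk0, hik, hCk, fun l => ?_,
    hn.reduce h ⟨j, by rw [hk, mul_comm]⟩ c⟩
  have h1 := hc l
  have h2 : (j : ℤ) * n l - c l * (M : ℕ) = j * (n l - c l * k) := by
    rw [hk]
    push_cast
    ring
  rw [h2, abs_mul, Nat.abs_cast, hk] at h1
  push_cast at h1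
  have hj0 : (0 : ℤ) < j := by exact_mod_cast hj1
  have h3 : (j : ℤ) * ((T : ℤ) * |n l - c l * k|) < j * k := by
    calc (j : ℤ) * ((T : ℤ) * |n l - c l * k|) = (T : ℤ) * (j * |n l - c l * k|) := by ring
      _ < j * k := h1
  exact (lt_of_mul_lt_mul_left h3 hj0.le).le

/-- the coefficient of a monomial of `G` at `P ε^m` -/
noncomputable def cf (G : MvPolynomial ι L) (P : ι → L) (a : ι →₀ ℕ) : L :=
  G.coeff a * ∏ i, P i ^ a i

lemma prod_zpow_ex {R : Type} [Field R] {t : R} (ht : t ≠ 0) (m : ι → ℤ) (a : ι →₀ ℕ) :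
    ∏ i, (t ^ m i) ^ a i = t ^ ex m a := by
  classical
  unfold ex
  have key : ∀ s : Finset ι, ∏ i ∈ s, (t ^ m i) ^ a i = t ^ ∑ i ∈ s, (a i : ℤ) * m i := by
    intro s
    induction s using Finset.induction_on with
    | empty => simp
    | insert i s hi ih =>
      rw [Finset.prod_insert hi, Finset.sum_insert hi, ih, zpow_add₀ ht, ← zpow_natCast, ← zpow_mul,
        mul_comm (m i)]
  exact key _

lemma eval_eq (h0 : ε ≠ 0) (G : MvPolynomial ι L) (P : ι → L) (m : ι → ℤ) :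
    MvPolynomial.eval (fun i => P i * ε ^ m i) G = ∑ a ∈ G.support, cf G P a * ε ^ ex m a := by
  rw [MvPolynomial.eval_eq']
  refine Finset.sum_congr rfl fun a _ => ?_
  unfold cf
  rw [mul_assoc, ← prod_zpow_ex h0, ← Finset.prod_mul_distrib]
  congr 1
  exact Finset.prod_congr rfl fun i _ => mul_pow _ _ _

/-- the exponents are small -/
lemma abs_ex_le {m : ι → ℤ} {T k : ℕ} (hm : ∀ l, (T : ℤ) * |m l| ≤ k) (a : ι →₀ ℕ) :
    (T : ℤ) * |ex m a| ≤ (∑ i, a i : ℕ) * k := by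
  unfold ex
  calc (T : ℤ) * |∑ i, (a i : ℤ) * m i| ≤ (T : ℤ) * ∑ i, |(a i : ℤ) * m i| :=
        mul_le_mul_of_nonneg_left (Finset.abs_sum_le_sum_abs _ _) (by positivity)
    _ = ∑ i, (a i : ℤ) * ((T : ℤ) * |m i|) := by
        rw [Finset.mul_sum]
        refine Finset.sum_congr rfl fun i _ => ?_
        rw [abs_mul, Nat.abs_cast]
        ring
    _ ≤ ∑ i, (a i : ℤ) * k := Finset.sum_le_sum fun i _ =>
        mul_le_mul_of_nonneg_left (hm i) (by positivity)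
    _ = (∑ i, a i : ℕ) * k := by
        push_cast
        rw [Finset.sum_mul]

lemma norm_sum_le' {p : ℕ} [Fact p.Prime] {κ : Type} (s : Finset κ) (f : κ → PadicAlgCl p) {r : ℝ}
    (hr : 0 ≤ r) (hf : ∀ a ∈ s, ‖f a‖ ≤ r) : ‖∑ a ∈ s, f a‖ ≤ r := by
  classical
  induction s using Finset.induction_on with
  | empty => simpa using hr
  | insert i s hi ih =>
    rw [Finset.sum_insert hi]
    exact (IsUltrametricDist.norm_add_le_max _ _).trans (max_le (hf i (Finset.mem_insert_self _ _))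
      (ih fun a ha => hf a (Finset.mem_insert_of_mem ha)))

/-- the value of `G` is divisible by the modulus -/
lemma Approx.norm_le (h : Dta Mf ε Z Y) (G : MvPolynomial ι L)
    (hG : ∀ (p : ℕ) [Fact p.Prime] (μ : L →+* PadicAlgCl p),
      MvPolynomial.eval₂ μ (fun i => Y i p μ) G = 0) {P : ι → L} {m : ι → ℤ} {k : ℕ}
    (ha : Approx ε Y P m k) {D : ℕ} (hD : ∀ a ∈ G.support, IsIntegral ℤ ((D : L) * cf G P a))
    (p : ℕ) [Fact p.Prime] (μ : L →+* PadicAlgCl p) :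
    ‖μ ((D : L) * ∑ a ∈ G.support, cf G P a * ε ^ ex m a)‖ ≤ ‖μ (ε ^ k - 1)‖ := by
  choose v hv1 hv2 hv3 using ha p μ
  have hε1 := norm_unit h.hi h.hi' h.h0 μ
  have h1 := hG p μ
  rw [MvPolynomial.eval₂_eq'] at h1
  have h2 : μ ((D : L) * ∑ a ∈ G.support, cf G P a * ε ^ ex m a) =
      ∑ a ∈ G.support, μ ((D : L) * cf G P a * ε ^ ex m a) * (1 - ∏ i, v i ^ a i) := by
    have h3 : μ (D : L) * ∑ a ∈ G.support, μ (G.coeff a) * ∏ i, Y i p μ ^ a i = 0 := by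
      rw [h1, mul_zero]
    rw [Finset.mul_sum] at h3
    rw [← sub_zero (μ ((D : L) * ∑ a ∈ G.support, cf G P a * ε ^ ex m a)), ← h3, Finset.mul_sum,
      map_sum, ← Finset.sum_sub_distrib]
    refine Finset.sum_congr rfl fun a _ => ?_
    have h4 : ∏ i, Y i p μ ^ a i = (∏ i, (μ (P i)) ^ a i) * (μ ε) ^ ex m a * ∏ i, v i ^ a i := by
      rw [← prod_zpow_ex ((map_ne_zero μ).2 h.h0), ← Finset.prod_mul_distrib,
        ← Finset.prod_mul_distrib]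
      refine Finset.prod_congr rfl fun i _ => ?_
      rw [hv3, map_mul, map_zpow₀, mul_pow, mul_pow]
    rw [h4]
    unfold cf
    simp only [map_mul, map_prod, map_pow, map_zpow₀]
    ring
  rw [h2]
  refine norm_sum_le' _ _ (norm_nonneg _) fun a ha => ?_
  rw [norm_mul, map_mul, norm_mul, map_zpow₀, norm_zpow, hε1, one_zpow, mul_one]
  have h5 := norm_integral_le μ (hD a ha)
  have h6 : ‖1 - ∏ i, v i ^ a i‖ ≤ ‖μ (ε ^ k - 1)‖ := by
    rw [← norm_neg, neg_sub]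
    exact near_prod _ (norm_nonneg _) hv1 hv2 _
  calc _ ≤ 1 * ‖μ (ε ^ k - 1)‖ := mul_le_mul h5 h6 (norm_nonneg _) zero_le_one
    _ = _ := one_mul _

/-- **Exactness.** -/
lemma Dta.exact_of_small (h : Dta Mf ε Z Y) {Λ : ℝ} (hΛ : 1 < Λ) (G : MvPolynomial ι L)
    (hG : ∀ (p : ℕ) [Fact p.Prime] (μ : L →+* PadicAlgCl p),
      MvPolynomial.eval₂ μ (fun i => Y i p μ) G = 0) :
    ∃ (T : ℕ) (C : ℝ), 0 < T ∧ ∀ T' C', T ≤ T' → C ≤ C' → ∀ P : ι → L, (∀ l, P l ∈ Z l) →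
      ∀ (m : ι → ℤ) (k : ℕ), 0 < k → C' * Λ ^ k < nC (ε ^ k - 1) →
        (∀ l, (T' : ℤ) * |m l| ≤ k) → Approx ε Y P m k →
        ∑ a ∈ G.support, cf G P a * ε ^ ex m a = 0 := by
  classical
  obtain ⟨B, hB1, HB⟩ := nC_sum_le h.h0
  choose C0 hC0 hC using fun P : ι → L => HB G.support (cf G P)
  choose D hD hDi using fun P : ι → L => exists_den G.support (cf G P)
  set deg := G.support.sup (fun a => ∑ i, a i) with hdeg
  obtain ⟨T, hT⟩ := pow_unbounded_of_one_lt (B ^ deg) hΛ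
  have hnn : ∀ P : ι → L, 0 ≤ nC ((D P : ℕ) : L) * C0 P := fun P => mul_nonneg (nC_nonneg _) (hC0 P)
  refine ⟨T + 1, ∑ P ∈ Fintype.piFinset Z, nC ((D P : ℕ) : L) * C0 P, Nat.succ_pos _, ?_⟩
  intro T' C' hT' hC' P hP m k hk hCk hm ha
  by_contra hS
  set S := ∑ a ∈ G.support, cf G P a * ε ^ ex m a with hSdef
  have hCnn : 0 ≤ C' := (Finset.sum_nonneg fun P _ => hnn P).trans hC'
  have hCP : nC ((D P : ℕ) : L) * C0 P ≤ C' :=
    (Finset.single_le_sum (f := fun P => nC ((D P : ℕ) : L) * C0 P) (fun P _ => hnn P)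
      (Fintype.mem_piFinset.2 hP)).trans hC'
  have hΛk : 0 < Λ ^ k := pow_pos (by linarith) _
  have hεk : 0 < nC (ε ^ k - 1) := lt_of_le_of_lt (mul_nonneg hCnn hΛk.le) hCk
  have hεk0 : ε ^ k - 1 ≠ 0 := by
    intro h0
    rw [h0] at hεk
    obtain ⟨σ⟩ : Nonempty (L →+* ℂ) := inferInstance
    have : nC (0 : L) = 0 := by
      unfold nC
      exact Finset.prod_eq_zero (Finset.mem_univ σ) (by rw [map_zero, norm_zero])
    rw [this] at hεk
    exact lt_irrefl _ hεk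
  have hD0 : ((D P : ℕ) : L) ≠ 0 := by exact_mod_cast (hD P).ne'
  have hβi : IsIntegral ℤ ((((D P : ℕ) : L) * S) / (ε ^ k - 1)) := by
    refine isIntegral_of_norm fun p _ μ => ?_
    rw [map_div₀, norm_div]
    exact div_le_one_of_le₀ (ha.norm_le h G hG (hDi P) p μ) (norm_nonneg _)
  have h1 := one_le_nC hβi (div_ne_zero (mul_ne_zero hD0 hS) hεk0)
  have h2 : nC ((((D P : ℕ) : L) * S) / (ε ^ k - 1)) * nC (ε ^ k - 1) =
      nC ((D P : ℕ) : L) * nC S := by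
    rw [← nC_mul, div_mul_cancel₀ _ hεk0, nC_mul]
  set E := G.support.sup (fun a => (ex m a).natAbs) with hE
  have hEle : ∀ a ∈ G.support, |ex m a| ≤ (E : ℤ) := by
    intro a ha
    rw [Int.abs_eq_natAbs]
    exact_mod_cast Finset.le_sup (f := fun a => (ex m a).natAbs) ha
  have hET : T' * E ≤ deg * k := by
    rcases G.support.eq_empty_or_nonempty with he | hne
    · rw [hE, he, Finset.sup_empty]
      simp
    · obtain ⟨a, ha, hae⟩ := Finset.exists_mem_eq_sup _ hne (fun a => (ex m a).natAbs)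
      rw [hE, hae]
      have h3 := abs_ex_le hm a
      have h4 : ∑ i, a i ≤ deg := Finset.le_sup (f := fun a : ι →₀ ℕ => ∑ i, a i) ha
      rw [Int.abs_eq_natAbs] at h3
      have h5 : T' * (ex m a).natAbs ≤ (∑ i, a i) * k := by exact_mod_cast h3
      exact h5.trans (Nat.mul_le_mul_right _ h4)
  have h3 := hC P (fun a => ex m a) E hEle
  have h4 : B ^ E ≤ Λ ^ k := by
    have h5 : (B ^ E) ^ T' ≤ (Λ ^ k) ^ T' := by
      calc (B ^ E) ^ T' = B ^ (T' * E) := by rw [← pow_mul, mul_comm]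
        _ ≤ B ^ (deg * k) := pow_le_pow_right₀ hB1 hET
        _ = (B ^ deg) ^ k := pow_mul _ _ _
        _ ≤ (Λ ^ T) ^ k := pow_le_pow_left₀ (by positivity) hT.le k
        _ ≤ (Λ ^ T') ^ k := pow_le_pow_left₀ (pow_nonneg (by linarith) _)
            (pow_le_pow_right₀ hΛ.le (by omega)) k
        _ = (Λ ^ k) ^ T' := by rw [← pow_mul, ← pow_mul, mul_comm]
    exact (pow_le_pow_iff_left₀ (by positivity) hΛk.le (by omega)).1 h5
  have h5 : nC ((D P : ℕ) : L) * nC S ≤ C' * Λ ^ k := by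
    calc nC ((D P : ℕ) : L) * nC S ≤ nC ((D P : ℕ) : L) * (C0 P * B ^ E) :=
          mul_le_mul_of_nonneg_left h3 (nC_nonneg _)
      _ = nC ((D P : ℕ) : L) * C0 P * B ^ E := by ring
      _ ≤ nC ((D P : ℕ) : L) * C0 P * Λ ^ k := mul_le_mul_of_nonneg_left h4 (hnn P)
      _ ≤ C' * Λ ^ k := mul_le_mul_of_nonneg_right hCP hΛk.le
  nlinarith

/-- **Finiteness of the exact solutions.** -/
lemma finite_exact (hi : IsIntegral ℤ ε) (hi' : IsIntegral ℤ ε⁻¹) (h0 : ε ≠ 0)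
    (hε : ∀ n : ℕ, 0 < n → ε ^ n ≠ 1) (I : Finset (MvPolynomial ι L))
    (hno : ∀ P : ι → L, (∀ i, P i ≠ 0) → ∀ w : ι → ℤ, w ≠ 0 → ∃ G ∈ I,
      MvPolynomial.eval₂ (algebraMap L (RatFunc L))
        (fun i => algebraMap L (RatFunc L) (P i) * RatFunc.X ^ w i) G ≠ 0)
    (P : ι → L) (hP : ∀ i, P i ≠ 0) :
    {m : ι → ℤ | ∀ G ∈ I, ∑ a ∈ G.support, cf G P a * ε ^ ex m a = 0}.Finite := by
  classical
  by_contra hinf
  have hinf' : {m : ι → ℤ | ∀ G ∈ I, ∑ a ∈ G.support, cf G P a * ε ^ ex m a = 0}.Infinite := hinf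
  choose D hD hDi using fun G : MvPolynomial ι L => exists_den G.support (cf G P)
  choose R hR using fun G : MvPolynomial ι L =>
    gap_lemma hi hi' h0 hε G.support (cf G P) (D G) (hD G) (hDi G)
  obtain ⟨m, hm, w, hw, hmw⟩ := exists_pair _ hinf' (I.sup R) (I.biUnion fun G => G.support)
  obtain ⟨G, hG, hne⟩ := hno (fun i => P i * ε ^ m i)
    (fun i => mul_ne_zero (hP i) (zpow_ne_zero _ h0)) w hw
  apply hne
  have hcl := cluster (I.sup R) (fun a => ex m a) (fun a => ex w a)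
    (fun a => cf G P a * ε ^ ex m a) G.support.card G.support le_rfl
    (fun E hE => hR G (I.sup R) (Finset.le_sup hG) (fun a => ex m a) (hm G hG) E hE)
    (fun a ha b hb hab => hmw a (Finset.mem_biUnion.2 ⟨G, hG, ha⟩) b
      (Finset.mem_biUnion.2 ⟨G, hG, hb⟩) hab)
  rw [MvPolynomial.eval₂_eq']
  have hX : (RatFunc.X : RatFunc L) ≠ 0 := RatFunc.X_ne_zero
  have h1 : ∀ a ∈ G.support, algebraMap L (RatFunc L) (G.coeff a) *
      ∏ i, (algebraMap L (RatFunc L) (P i * ε ^ m i) * RatFunc.X ^ w i) ^ a i =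
      algebraMap L (RatFunc L) (cf G P a * ε ^ ex m a) * RatFunc.X ^ ex w a := by
    intro a _
    rw [← prod_zpow_ex hX w a, ← prod_zpow_ex h0 m a]
    unfold cf
    simp only [mul_pow, map_mul, map_pow, map_prod, Finset.prod_mul_distrib]
    ring
  rw [Finset.sum_congr rfl h1,
    ← Finset.sum_fiberwise_of_maps_to (t := G.support.image (fun a => ex w a))
      (g := fun a => ex w a) (fun a ha => Finset.mem_image_of_mem _ ha)]
  refine Finset.sum_eq_zero fun c _ => ?_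
  have h2 : ∑ a ∈ G.support.filter (fun a => ex w a = c),
      algebraMap L (RatFunc L) (cf G P a * ε ^ ex m a) * RatFunc.X ^ ex w a =
      algebraMap L (RatFunc L) (∑ a ∈ G.support.filter (fun a => ex w a = c),
        cf G P a * ε ^ ex m a) * RatFunc.X ^ c := by
    rw [map_sum, Finset.sum_mul]
    refine Finset.sum_congr rfl fun a ha => ?_
    rw [(Finset.mem_filter.1 ha).2]
  rw [h2, hcl c, map_zero, zero_mul]

/-- **The exponential local-global principle in rank one.** -/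
theorem core (h : Dta Mf ε Z Y) (I : Finset (MvPolynomial ι L))
    (hI : ∀ G ∈ I, ∀ (p : ℕ) [Fact p.Prime] (μ : L →+* PadicAlgCl p),
      MvPolynomial.eval₂ μ (fun i => Y i p μ) G = 0)
    (hno : ∀ P : ι → L, (∀ i, P i ≠ 0) → ∀ w : ι → ℤ, w ≠ 0 → ∃ G ∈ I,
      MvPolynomial.eval₂ (algebraMap L (RatFunc L))
        (fun i => algebraMap L (RatFunc L) (P i) * RatFunc.X ^ w i) G ≠ 0) :
    ∃ y : ι → L, (∀ i, y i ≠ 0) ∧ ∀ (p : ℕ) [Fact p.Prime] (μ : L →+* PadicAlgCl p) (i : ι),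
      Y i p μ = μ (y i) := by
  classical
  by_cases hε : ∀ n : ℕ, 0 < n → ε ^ n ≠ 1
  · -- the unit has infinite order
    obtain ⟨Λ, hΛ, HΛ⟩ := h.small hε
    have hT' : ∀ G : MvPolynomial ι L, ∃ (T : ℕ) (C : ℝ), G ∈ I → 0 < T ∧ ∀ T' C', T ≤ T' → C ≤ C' →
      ∀ P : ι → L, (∀ l, P l ∈ Z l) → ∀ (m : ι → ℤ) (k : ℕ), 0 < k → C' * Λ ^ k < nC (ε ^ k - 1) →
        (∀ l, (T' : ℤ) * |m l| ≤ k) → Approx ε Y P m k →
        ∑ a ∈ G.support, cf G P a * ε ^ ex m a = 0 := by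
      intro G
      by_cases hG : G ∈ I
      · obtain ⟨T, C, hT, H⟩ := h.exact_of_small hΛ G (hI G hG)
        exact ⟨T, C, fun _ => ⟨hT, H⟩⟩
      · exact ⟨0, 0, fun h => absurd h hG⟩
    choose T C hTC using hT'
    set Tm := I.sup T + 1 with hTm
    set Cm := ∑ G ∈ I, |C G| with hCm
    have hCle : ∀ G ∈ I, C G ≤ Cm := fun G hG => (le_abs_self _).trans
      (Finset.single_le_sum (f := fun G => |C G|) (fun G _ => abs_nonneg _) hG)
    -- the finite set of exact solutions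
    let S : Set ((ι → L) × (ι → ℤ)) := {s | (∀ l, s.1 l ∈ Z l) ∧
      ∀ G ∈ I, ∑ a ∈ G.support, cf G s.1 a * ε ^ ex s.2 a = 0}
    have hS : S.Finite := by
      have h1 : S ⊆ ⋃ P ∈ (Fintype.piFinset Z : Set (ι → L)), (fun m => (P, m)) ''
          {m : ι → ℤ | ∀ G ∈ I, ∑ a ∈ G.support, cf G P a * ε ^ ex m a = 0} := by
        rintro ⟨P, m⟩ ⟨h1, h2⟩
        exact Set.mem_biUnion (Finset.mem_coe.2 (Fintype.mem_piFinset.2 h1)) ⟨m, h2, rfl⟩
      refine Set.Finite.subset (Set.Finite.biUnion (Finset.finite_toSet _) fun P hP => ?_) h1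
      exact (finite_exact h.hi h.hi' h.h0 hε I hno P (fun l =>
        h.hZ l _ (Fintype.mem_piFinset.1 (Finset.mem_coe.1 hP) l))).image _
    have := hS.to_subtype
    have key : ∀ i : ℕ, ∃ s : S, ∃ k : ℕ, i.factorial ∣ k ∧ Approx ε Y s.1.1 s.1.2 k := by
      intro i
      obtain ⟨P, hP, m, k, hk, hik, hCk, hm, ha⟩ := HΛ Tm Cm i (Nat.succ_pos _)
      refine ⟨⟨(P, m), hP, fun G hG => ?_⟩, k, hik, ha⟩
      exact (hTC G hG).2 Tm Cm (by
        have := Finset.le_sup (f := T) hG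
        omega) (hCle G hG) P hP m k hk hCk hm ha
    obtain ⟨s, hs⟩ := pigeon key
    refine ⟨fun i => s.1.1 i * ε ^ s.1.2 i, fun i => mul_ne_zero (h.hZ i _ (s.2.1 i))
      (zpow_ne_zero _ h.h0), fun p _ μ i => ?_⟩
    have hε1 := norm_unit h.hi h.hi' h.h0 μ
    by_contra hne
    set y0 := μ (s.1.1 i * ε ^ s.1.2 i) with hy0
    have hy00 : y0 ≠ 0 := (map_ne_zero μ).2 (mul_ne_zero (h.hZ i _ (s.2.1 i))
      (zpow_ne_zero _ h.h0))
    have hpos : 0 < ‖Y i p μ / y0 - 1‖ := by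
      rw [norm_pos_iff, sub_ne_zero]
      intro h1
      exact hne ((div_eq_one_iff_eq hy00).1 h1)
    obtain ⟨q, hq⟩ := exists_pow_near (Mf p) (h.hMf p) hpos
    obtain ⟨i', hi', k, hk, ha⟩ := hs q
    obtain ⟨v, hv1, hv2, hv3⟩ := ha p μ i
    have h1 : Y i p μ / y0 = v := by
      rw [hv3, ← hy0, mul_div_cancel_left₀ _ hy00]
    rw [h1] at hq
    obtain ⟨c, hc⟩ := (Nat.factorial_dvd_factorial hi').trans hk
    have h2 := norm_pow_sub_one (v := (μ ε) ^ q.factorial) (by rw [norm_pow, hε1, one_pow])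
      (hq (μ ε) (h.hMμ p μ ε) hε1) c
    rw [← pow_mul, ← hc] at h2
    rw [map_sub, map_pow, map_one] at hv2
    exact absurd hv2 (not_le.2 h2)
  · -- the unit has finite order
    push Not at hε
    obtain ⟨t, ht, hεt⟩ := hε
    let σ := (∀ i, {P : L // P ∈ Z i}) × (ι → Fin t)
    have key : ∀ k : ℕ, ∃ s : σ, ∀ (p : ℕ) [Fact p.Prime] (μ : L →+* PadicAlgCl p) (i : ι),
        ∃ w ∈ Mf p, ‖w‖ = 1 ∧ Y i p μ = μ (s.1 i * ε ^ (s.2 i : ℕ)) * w ^ k.factorial := by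
      intro k
      obtain ⟨P, hP, n, hn⟩ := h.hY k
      have ht0 : (0 : ℤ) < t := by exact_mod_cast ht
      refine ⟨(fun i => ⟨P i, hP i⟩, fun i => ⟨(n i % t).toNat, by
        have h1 := Int.emod_lt_of_pos (n i) ht0
        have h2 := Int.emod_nonneg (n i) ht0.ne'
        omega⟩), fun p _ μ i => ?_⟩
      obtain ⟨w, hw, hw1, hw2⟩ := hn p μ i
      refine ⟨w, hw, hw1, ?_⟩
      rw [hw2]
      congr 3
      have h2 := Int.emod_nonneg (n i) ht0.ne'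
      have h3 : ((n i % t).toNat : ℤ) = n i % t := Int.toNat_of_nonneg h2
      rw [← zpow_natCast, h3]
      conv_lhs => rw [← Int.emod_add_mul_ediv (n i) t, zpow_add₀ h.h0, zpow_mul, zpow_natCast, hεt,
        one_zpow, mul_one]
    obtain ⟨s, hs⟩ := pigeon key
    have hs0 : ∀ i, (s.1 i : L) * ε ^ (s.2 i : ℕ) ≠ 0 := fun i =>
      mul_ne_zero (h.hZ i _ (s.1 i).2) (pow_ne_zero _ h.h0)
    refine ⟨fun i => s.1 i * ε ^ (s.2 i : ℕ), hs0, fun p _ μ i => ?_⟩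
    have hy00 : μ (s.1 i * ε ^ (s.2 i : ℕ)) ≠ 0 := (map_ne_zero μ).2 (hs0 i)
    have hY0 : Y i p μ ≠ 0 := by
      obtain ⟨k, -, hk⟩ := hs 0
      obtain ⟨w, -, hw1, hw⟩ := hk p μ i
      rw [hw]
      refine mul_ne_zero hy00 (pow_ne_zero _ ?_)
      rintro rfl
      simp at hw1
    have h1 : Y i p μ / μ (s.1 i * ε ^ (s.2 i : ℕ)) = 1 := by
      refine eq_one_of_powers (Mf p) (h.hMf p) (div_ne_zero hY0 hy00) fun B => ?_
      obtain ⟨k, hk, hk'⟩ := hs B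
      obtain ⟨w, hw, -, hw'⟩ := hk' p μ i
      exact ⟨k, hk, w, hw, by rw [hw', mul_div_cancel_left₀ _ hy00]⟩
    exact (div_eq_one_iff_eq hy00).1 h1

end core

end Pool.Agent.H886.Exp
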