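import Mathlib

/-!
# Curves in the two-dimensional torus which are no translates of subtori
-/

set_option autoImplicit false
set_option linter.unusedSectionVars false

namespace Pool.Agent.H886.Exp

open IntermediateField

section alg

variable {K F : Type} [Field K] [Field F] [Algebra K F]

/-- every transcendental element of a function field of one variable generates a subfield over
which the function field is algebraic -/
lemma alg_exchange {x t : F} (hx : Transcendental K x) (hF : Algebra.IsAlgebraic K⟮x⟯ F)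
    (ht : Transcendental K t) : Algebra.IsAlgebraic K⟮t⟯ F := by
  have h1 : IsAlgebraic K⟮t⟯ x := isAlgebraic_adjoin_iff.2
    (IsAlgebraic.adjoin_singleton (A := F) (B := F) hx ht
      (isAlgebraic_adjoin_iff.1 (hF.isAlgebraic t)))
  let E : IntermediateField K⟮t⟯ F := algebraicClosure K⟮t⟯ F
  have hxE : x ∈ E := mem_algebraicClosure_iff.2 h1
  have hle : K⟮x⟯ ≤ E.restrictScalars K := by
    rw [adjoin_simple_le_iff]
    exact hxE
  refine ⟨fun f => ?_⟩
  obtain ⟨q, hq0, hq⟩ := hF.isAlgebraic f
  let i : K⟮x⟯ →+* E := (IntermediateField.inclusion hle : K⟮x⟯ →+* (E.restrictScalars K))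
  have hi : (algebraMap E F).comp i = algebraMap K⟮x⟯ F := rfl
  have h2 : IsAlgebraic E f := by
    refine ⟨q.map i, (Polynomial.map_ne_zero_iff i.injective).2 hq0, ?_⟩
    rw [Polynomial.aeval_def, Polynomial.eval₂_map, hi]
    exact hq
  have h3 : Algebra.IsAlgebraic K⟮t⟯ E := algebraicClosure.isAlgebraic K⟮t⟯ F
  exact h2.restrictScalars K⟮t⟯

lemma transcendental_of_pow {t : F} {w : ℤ} (h : Transcendental K (t ^ w)) : Transcendental K t := by
  intro h1
  apply h
  obtain ⟨m, hm | hm⟩ := Int.eq_nat_or_neg w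
  · rw [hm, zpow_natCast]
    exact h1.pow m
  · rw [hm, zpow_neg, zpow_natCast]
    exact (h1.pow m).inv

lemma transcendental_mul_zpow {a : K} (ha : a ≠ 0) {w : ℤ} (hw : w ≠ 0) :
    Transcendental K (algebraMap K (RatFunc K) a * RatFunc.X ^ w) := by
  intro h
  have h0 : algebraMap K (RatFunc K) a ≠ 0 := (map_ne_zero _).2 ha
  have h1 : IsAlgebraic K ((RatFunc.X : RatFunc K) ^ w) := by
    have h2 := (isAlgebraic_algebraMap (R := K) (A := RatFunc K) a⁻¹).mul h
    rwa [map_inv₀, ← mul_assoc, inv_mul_cancel₀ h0, one_mul] at h2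
  have h2 : IsAlgebraic K ((RatFunc.X : RatFunc K) ^ w.natAbs) := by
    rcases Int.natAbs_eq w with h3 | h3
    · rw [h3, zpow_natCast] at h1
      exact h1
    · rw [h3, zpow_neg, zpow_natCast] at h1
      have := h1.inv
      rwa [inv_inv] at this
  exact RatFunc.transcendental_X (IsAlgebraic.of_pow (Int.natAbs_pos.2 hw) h2)

open MvPolynomial in
/-- the kernel of the evaluation is zero if all relations between `x 0` and `x 1` hold on the coset -/
lemma inj_of_rel {ι : Type} {x : ι → F} {i : ι} (hF : Algebra.IsAlgebraic K⟮x i⟯ F)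
    {Ω : Type} [Field Ω] [Algebra K Ω] (y : ι → Ω)
    (hrel : ∀ G : MvPolynomial ι K, aeval x G = 0 → aeval y G = 0)
    (hy : Transcendental K (y i)) (f : MvPolynomial ι K) (hf : aeval y f = 0) : aeval x f = 0 := by
  classical
  by_contra hne
  obtain ⟨q, hq0, hq⟩ := (isAlgebraic_adjoin_iff.1 (hF.isAlgebraic (aeval x f))).exists_nonzero_coeff_and_aeval_eq_zero
    (mem_nonZeroDivisors_of_ne_zero hne)
  -- lift the polynomial
  let π : Polynomial K →ₐ[K] Algebra.adjoin K {x i} :=
    (Polynomial.aeval (⟨x i, Algebra.self_mem_adjoin_singleton K (x i)⟩ : Algebra.adjoin K {x i}))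
  have hπ : Function.Surjective π := by
    rintro ⟨z, hz⟩
    rw [Algebra.adjoin_singleton_eq_range_aeval] at hz
    obtain ⟨c, hc⟩ := hz
    refine ⟨c, Subtype.ext ?_⟩
    exact (Polynomial.aeval_algHom_apply (Algebra.adjoin K {x i}).val
      (⟨x i, Algebra.self_mem_adjoin_singleton K (x i)⟩ : Algebra.adjoin K {x i}) c).symm.trans hc
  obtain ⟨Q, hQ⟩ := Polynomial.map_surjective (π : Polynomial K →+* Algebra.adjoin K {x i}) hπ q
  let ι' : Polynomial K →+* MvPolynomial ι K :=
    ((Polynomial.aeval (X i) : Polynomial K →ₐ[K] MvPolynomial ι K) :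
      Polynomial K →+* MvPolynomial ι K)
  set G : MvPolynomial ι K := Polynomial.eval₂ ι' f Q with hG
  have h1 : aeval x G = 0 := by
    have e1 : ((aeval x : MvPolynomial ι K →ₐ[K] F) : MvPolynomial ι K →+* F).comp ι' =
        (algebraMap (Algebra.adjoin K {x i}) F).comp
          (π : Polynomial K →+* Algebra.adjoin K {x i}) := by
      ext c
      · simp [ι', π]
      · simp [ι', π]
    have h2 := Polynomial.hom_eval₂ Q ι'
      ((aeval x : MvPolynomial ι K →ₐ[K] F) : MvPolynomial ι K →+* F) f
    rw [e1, ← Polynomial.eval₂_map, hQ] at h2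
    rw [hG]
    exact h2.trans hq
  have h2 := hrel G h1
  have h3 : Polynomial.aeval (y i) (Q.coeff 0) = 0 := by
    have e1 : ((aeval y : MvPolynomial ι K →ₐ[K] Ω) : MvPolynomial ι K →+* Ω).comp ι' =
        ((Polynomial.aeval (y i) : Polynomial K →ₐ[K] Ω) : Polynomial K →+* Ω) := by
      ext c
      · simp [ι']
      · simp [ι']
    have h4 := Polynomial.hom_eval₂ Q ι'
      ((aeval y : MvPolynomial ι K →ₐ[K] Ω) : MvPolynomial ι K →+* Ω) f
    have h5 : ((aeval y : MvPolynomial ι K →ₐ[K] Ω) : MvPolynomial ι K →+* Ω) f = 0 := hf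
    rw [e1, h5, Polynomial.eval₂_at_zero] at h4
    rw [← hG] at h4
    exact h4.symm.trans h2
  have h4 : Q.coeff 0 = 0 := by
    by_contra h0
    exact hy ⟨_, h0, h3⟩
  apply hq0
  rw [← hQ, Polynomial.coeff_map, h4, map_zero]

/-- the two exponents -/
lemma key_exp (a b : ℤ) : a * b.toNat + b * (-a).toNat = a * (-b).toNat + b * a.toNat := by
  have h1 : (a.toNat : ℤ) - (-a).toNat = a := by omega
  have h2 : (b.toNat : ℤ) - (-b).toNat = b := by omega
  nlinarith [congrArg (fun z => b * z) h1, congrArg (fun z => a * z) h2]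

open MvPolynomial in
/-- **No cosets.** Functions on a curve, two of which are multiplicatively independent modulo
constants, do not map it to a coset of a subtorus of dimension one. -/
theorem no_coset {ι : Type} {x : ι → F} (hx0 : ∀ i, x i ≠ 0) (i j : ι)
    (hind : ∀ a b : ℤ, (a ≠ 0 ∨ b ≠ 0) → Transcendental K (x i ^ a * x j ^ b))
    (hF : Algebra.IsAlgebraic K⟮x i⟯ F) (P : ι → K) (hP : ∀ i, P i ≠ 0) (w : ι → ℤ)
    (hw : w ≠ 0) :
    ∃ G : MvPolynomial ι K, aeval x G = 0 ∧
      aeval (fun i => algebraMap K (RatFunc K) (P i) * RatFunc.X ^ w i) G ≠ 0 := by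
  by_contra hc
  push Not at hc
  set y : ι → RatFunc K := fun i => algebraMap K (RatFunc K) (P i) * RatFunc.X ^ w i with hy
  have hxit : Transcendental K (x i) := by
    have := hind 1 0 (Or.inl one_ne_zero)
    simpa using this
  obtain ⟨l, hl⟩ : ∃ l, w l ≠ 0 := by
    by_contra h
    push Not at h
    exact hw (funext h)
  have hyt : Transcendental K (y l) := transcendental_mul_zpow (hP l) hl
  have hxlt : Transcendental K (x l) := by
    rintro ⟨q, hq0, hq⟩
    apply hyt
    refine ⟨q, hq0, ?_⟩
    have h1 := hc (Polynomial.aeval (X l) q) (by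
      rw [← Polynomial.aeval_algHom_apply, aeval_X]
      exact hq)
    rwa [← Polynomial.aeval_algHom_apply, aeval_X] at h1
  have hinj := inj_of_rel (alg_exchange hxit hF hxlt) y hc hyt
  by_cases hor : w i = 0 ∧ w j = 0
  · have h1 := hinj (X i - C (P i)) (by
      simp only [map_sub, aeval_X, aeval_C, hy, hor.1, zpow_zero, mul_one, sub_self])
    rw [map_sub, aeval_X, aeval_C, sub_eq_zero] at h1
    apply hxit
    rw [h1]
    exact isAlgebraic_algebraMap _
  set c : K := P i ^ w j * P j ^ (-w i) with hcdef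
  have hX0 : (RatFunc.X : RatFunc K) ≠ 0 := RatFunc.X_ne_zero
  have hPc : P i ^ (w j).toNat * P j ^ (-w i).toNat =
      c * (P i ^ (-w j).toNat * P j ^ (w i).toNat) := by
    have h1 : ((w j).toNat : ℤ) = w j + (-w j).toNat := by omega
    have h2 : ((-w i).toNat : ℤ) = -w i + (w i).toNat := by omega
    rw [hcdef, ← zpow_natCast (P i), ← zpow_natCast (P j), h1, h2, zpow_add₀ (hP i),
      zpow_add₀ (hP j), zpow_natCast, zpow_natCast]
    ring
  have h1 := hinj
    (X i ^ (w j).toNat * X j ^ (-w i).toNat - C c * (X i ^ (-w j).toNat * X j ^ (w i).toNat)) (by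
      simp only [map_sub, map_mul, map_pow, aeval_X, aeval_C, hy, mul_pow]
      have h2 : ∀ m n : ℕ, ((RatFunc.X : RatFunc K) ^ w i) ^ m * (RatFunc.X ^ w j) ^ n =
          RatFunc.X ^ (w i * m + w j * n) := by
        intro m n
        rw [← zpow_natCast, ← zpow_natCast, ← zpow_mul, ← zpow_mul, ← zpow_add₀ hX0]
      have h3 := congrArg (algebraMap K (RatFunc K)) hPc
      simp only [map_mul, map_pow] at h3
      have h4 := key_exp (w i) (w j)
      have h5 := h2 (w j).toNat (-w i).toNat
      have h6 := h2 (-w j).toNat (w i).toNat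
      rw [h4] at h5
      linear_combination
        (((RatFunc.X : RatFunc K) ^ w i) ^ (w j).toNat * (RatFunc.X ^ w j) ^ (-w i).toNat) * h3 +
        (algebraMap K (RatFunc K) c * (algebraMap K (RatFunc K) (P i) ^ (-w j).toNat *
          algebraMap K (RatFunc K) (P j) ^ (w i).toNat)) * (h5 - h6))
  have h2 : x i ^ w j * x j ^ (-w i) = algebraMap K F c := by
    simp only [map_sub, map_mul, map_pow, aeval_X, aeval_C] at h1
    rw [sub_eq_zero] at h1
    have h3 : ((w j).toNat : ℤ) - (-w j).toNat = w j := by omega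
    have h4 : ((-w i).toNat : ℤ) - (w i).toNat = -w i := by omega
    rw [← h4]
    conv_lhs => rw [← h3]
    rw [zpow_sub₀ (hx0 i), zpow_sub₀ (hx0 j), zpow_natCast, zpow_natCast, zpow_natCast,
      zpow_natCast, div_mul_div_comm, h1, mul_div_assoc, div_self, mul_one]
    exact mul_ne_zero (pow_ne_zero _ (hx0 i)) (pow_ne_zero _ (hx0 j))
  apply hind (w j) (-w i) (by
    by_contra h
    push Not at h
    exact hor ⟨by omega, h.1⟩)
  rw [h2]
  exact isAlgebraic_algebraMap c

end alg

end Pool.Agent.H886.Exp
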