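import Pool.Agent.H886.Exp.Core

/-!
# Number fields with at most two archimedean places
-/

set_option autoImplicit false
set_option linter.unusedSectionVars false

namespace Pool.Agent.H886.Exp

open NumberField IsDedekindDomain Pool.Agent.W518.TC Pool.Agent.Q33.SecL

variable {L : Type} [Field L] [NumberField L]

/-- the group of units in the field -/
noncomputable def cu : (𝓞 L)ˣ →* Lˣ := Units.map (algebraMap (𝓞 L) L : 𝓞 L →* L)

lemma cu_coe (u : (𝓞 L)ˣ) : ((cu u : Lˣ) : L) = algebraMap (𝓞 L) L (u : 𝓞 L) := rfl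

lemma cu_int (u : (𝓞 L)ˣ) : IsIntegral ℤ ((cu u : Lˣ) : L) := (u : 𝓞 L).isIntegral_coe

lemma cu_int' (u : (𝓞 L)ˣ) : IsIntegral ℤ (((cu u : Lˣ) : L)⁻¹) := by
  have h1 : (((cu u : Lˣ) : L)⁻¹) = ((cu u⁻¹ : Lˣ) : L) := by
    rw [map_inv, Units.val_inv_eq_inv_val]
  rw [h1]
  exact cu_int _

/-- the elements of order zero are the units -/
lemma exists_cu {η : L} (h0 : η ≠ 0) (h : ∀ v, ord v η = 0) : ∃ u : (𝓞 L)ˣ, ((cu u : Lˣ) : L) = η := by
  have hi : IsIntegral ℤ η := (isIntegral_iff_ord h0).2 fun v => (h v).ge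
  have hi' : IsIntegral ℤ η⁻¹ := (isIntegral_iff_ord (inv_ne_zero h0)).2 fun v => by
    rw [ord_inv, h v, neg_zero]
  let a : 𝓞 L := ⟨η, hi⟩
  let b : 𝓞 L := ⟨η⁻¹, hi'⟩
  have hab : a * b = 1 := by
    apply RingOfIntegers.ext
    change η * η⁻¹ = 1
    exact mul_inv_cancel₀ h0
  exact ⟨⟨a, b, hab, by rw [mul_comm, hab]⟩, rfl⟩

/-- the units of a number field with at most two archimedean places -/
theorem exists_eps (h : Fintype.card (InfinitePlace L) ≤ 2) :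
    ∃ ε : L, IsIntegral ℤ ε ∧ IsIntegral ℤ ε⁻¹ ∧ ε ≠ 0 ∧ ∃ W : Finset L, (∀ ζ ∈ W, ζ ≠ 0) ∧
      ∀ η : L, η ≠ 0 → (∀ v, ord v η = 0) → ∃ ζ ∈ W, ∃ n : ℤ, η = ζ * ε ^ n := by
  classical
  have hr : Units.rank L ≤ 1 := by
    unfold Units.rank
    omega
  let E : (𝓞 L)ˣ := ∏ i, Units.fundSystem L i
  have hE : ∀ f : Fin (Units.rank L) → ℤ, ∃ n : ℤ, ∏ i, (Units.fundSystem L i) ^ f i = E ^ n := by
    intro f
    rcases Nat.le_one_iff_eq_zero_or_eq_one.1 hr with h0 | h1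
    · have : IsEmpty (Fin (Units.rank L)) := by
        rw [h0]
        infer_instance
      refine ⟨0, ?_⟩
      rw [Finset.univ_eq_empty, Finset.prod_empty, zpow_zero]
    · have hs : Subsingleton (Fin (Units.rank L)) := by
        rw [h1]
        infer_instance
      let i0 : Fin (Units.rank L) := ⟨0, by omega⟩
      refine ⟨f i0, ?_⟩
      have h2 : ∀ g : Fin (Units.rank L) → (𝓞 L)ˣ, ∏ i, g i = g i0 := fun g =>
        Fintype.prod_subsingleton g i0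
      simp only [E]
      rw [h2, h2]
  have htf : Finite (Units.torsion L) := inferInstance
  have := Fintype.ofFinite (Units.torsion L)
  refine ⟨(cu E : Lˣ), cu_int E, cu_int' E, Units.ne_zero _,
    (Finset.univ : Finset (Units.torsion L)).image (fun ζ : Units.torsion L => ((cu (ζ : (𝓞 L)ˣ) : Lˣ) : L)), ?_, ?_⟩
  · intro ζ hζ
    obtain ⟨z, -, rfl⟩ := Finset.mem_image.1 hζ
    exact Units.ne_zero _
  · intro η h0 hη
    obtain ⟨u, rfl⟩ := exists_cu h0 hη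
    obtain ⟨⟨ζ, f⟩, hu, -⟩ := Units.exist_unique_eq_mul_prod L u
    obtain ⟨n, hn⟩ := hE f
    refine ⟨((cu (ζ : (𝓞 L)ˣ) : Lˣ) : L), Finset.mem_image.2 ⟨ζ, Finset.mem_univ _, rfl⟩, n, ?_⟩
    simp only at hu
    rw [hn] at hu
    conv_lhs => rw [hu]
    rw [map_mul, map_zpow, Units.val_mul, Units.val_zpow_eq_zpow_val]

variable {Mf : ∀ (p : ℕ) [Fact p.Prime], IntermediateField ℚ_[p] (PadicAlgCl p)}

/-- **The local-global principle for subvarieties of tori over number fields with at most two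
archimedean places.** -/
theorem adl_core (h2 : Fintype.card (InfinitePlace L) ≤ 2)
    (hMf : ∀ (p : ℕ) [Fact p.Prime], FiniteDimensional ℚ_[p] (Mf p))
    (hMμ : ∀ (p : ℕ) [Fact p.Prime] (μ : L →+* PadicAlgCl p) (x : L), μ x ∈ Mf p)
    {ι : Type} [Fintype ι]
    (Y : ι → ∀ (p : ℕ) [Fact p.Prime], (L →+* PadicAlgCl p) → PadicAlgCl p)
    (hY : ∀ i, Adl Mf (Y i)) (I : Finset (MvPolynomial ι L))
    (hI : ∀ G ∈ I, ∀ (p : ℕ) [Fact p.Prime] (μ : L →+* PadicAlgCl p),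
      MvPolynomial.eval₂ μ (fun i => Y i p μ) G = 0)
    (hno : ∀ P : ι → L, (∀ i, P i ≠ 0) → ∀ w : ι → ℤ, w ≠ 0 → ∃ G ∈ I,
      MvPolynomial.eval₂ (algebraMap L (RatFunc L))
        (fun i => algebraMap L (RatFunc L) (P i) * RatFunc.X ^ w i) G ≠ 0) :
    ∃ y : ι → L, (∀ i, y i ≠ 0) ∧ ∀ (p : ℕ) [Fact p.Prime] (μ : L →+* PadicAlgCl p) (i : ι),
      Y i p μ = μ (y i) := by
  classical
  obtain ⟨ε, hi, hi', h0, W, hW, hε⟩ := exists_eps h2
  choose γ hγ0 hγ using fun i => (hY i).units hMf hMμ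
  have hd : Dta Mf ε (fun i => W.image (fun ζ => γ i * ζ)) Y := by
    refine ⟨hMf, hMμ, hi, hi', h0, ?_, ?_⟩
    · intro i P hP
      obtain ⟨ζ, hζ, rfl⟩ := Finset.mem_image.1 hP
      exact mul_ne_zero (hγ0 i) (hW ζ hζ)
    · intro k
      choose η hη0 hηv hη using fun i => hγ i k
      choose ζ hζ n hn using fun i => hε (η i) (hη0 i) (hηv i)
      refine ⟨fun i => γ i * ζ i, fun i => Finset.mem_image_of_mem _ (hζ i), n, fun p _ μ i => ?_⟩
      obtain ⟨w, hw, hw1, hw2⟩ := hη i p μ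
      exact ⟨w, hw, hw1, by rw [hw2, hn i, mul_assoc]⟩
  exact core hd I hI hno

end Pool.Agent.H886.Exp
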