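import Pool.Agent.H886.Exp.Rank
import Pool.Agent.H886.Exp.Coset
import Pool.Graph.R_pool_sql_team_seeded_3997aac3.Q33.SecL.SecD

/-!
# Sections of curves with two independent units
-/

set_option autoImplicit false
set_option linter.unusedSectionVars false

namespace Pool.Agent.H886.Exp

open NumberField IsDedekindDomain IntermediateField Pool.Agent.W518.TC Pool.Agent.Q33.SecL

section adl

variable {K : Type} [Field K] [NumberField K]

/-- the values of a function without zeros and poles -/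
lemma adl_of_dat {X : ∀ (p : ℕ) [Fact p.Prime], (K →+* PadicAlgCl p) → PadicAlgCl p}
    (h : Dat X K (RingHom.id K) 0) : Adl (fun p _ => MM K p) X := by
  refine ⟨fun p _ μ => ?_, fun N hN => ?_, ?_⟩
  · have h1 := h.ne p μ
    rwa [RingHom.comp_id, map_zero, sub_zero] at h1
  · set n := Module.finrank ℚ K with hn
    obtain ⟨a, ha⟩ := h.kum (n.factorial * N) (Nat.mul_pos (Nat.factorial_pos _) hN)
    refine ⟨a, fun p _ μ => ?_⟩
    obtain ⟨u, hu, hu'⟩ := ha p μ
    have h1 := h.ne p μ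
    rw [RingHom.comp_id, map_zero, sub_zero] at hu' h1
    have hu0 : u ≠ 0 := by
      rintro rfl
      rw [zero_pow (Nat.mul_pos (Nat.factorial_pos _) hN).ne', mul_zero] at hu'
      exact h1 hu'
    obtain ⟨z, hz⟩ := norm_pow_mem (LL μ) (LL_finite μ) hu hu0 (LL_finrank μ)
    refine ⟨u ^ n.factorial, pow_mem (LL_le_MM μ hu) _, ⟨z, ?_⟩, ?_⟩
    · rw [norm_pow, hz]
    · rw [hu', ← pow_mul]
  · obtain ⟨D, hD, h1⟩ := h.unit
    refine ⟨D, hD, fun p _ μ hp => ?_⟩
    have h2 := h1 p μ hp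
    rwa [RingHom.comp_id, map_zero, sub_zero] at h2

end adl

section val

variable {K M : Type} [Field K] [Field M] [Algebra K M] {p : ℕ} [Fact p.Prime]
    {φ : K →+* PadicAlgCl p} {P : Pt K M φ}

lemma val_add {x y : M} {c d : PadicAlgCl p} (h : P.Val x c) (h' : P.Val y d) :
    P.Val (x + y) (c + d) := by
  obtain ⟨h1, rfl⟩ := h
  obtain ⟨h2, rfl⟩ := h'
  exact ⟨add_mem h1 h2, by rw [← map_add]; rfl⟩

/-- the values of polynomials -/
lemma val_aeval {ι : Type} {x : ι → M} {c : ι → PadicAlgCl p} (h : ∀ i, P.Val (x i) (c i))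
    (G : MvPolynomial ι K) : P.Val (MvPolynomial.aeval x G) (MvPolynomial.eval₂ φ c G) := by
  induction G using MvPolynomial.induction_on with
  | C a =>
    rw [MvPolynomial.aeval_C, MvPolynomial.eval₂_C]
    exact P.comm a
  | add f g hf hg =>
    rw [map_add, MvPolynomial.eval₂_add]
    exact val_add hf hg
  | mul_X f i hf =>
    rw [map_mul, MvPolynomial.aeval_X, MvPolynomial.eval₂_mul, MvPolynomial.eval₂_X]
    exact hf.mul (h i)

lemma val_zero : P.Val 0 0 := ⟨zero_mem _, map_zero P.ρ⟩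

end val

section main

variable {K F M B : Type} [Field K] [NumberField K] [Field F] [Field M] [Field B] [Algebra K F]
  [Algebra F M] [Algebra K M] [IsScalarTower K F M] [Algebra K B] [IsAlgClosed B]
  [Algebra.IsAlgebraic K B] [Algebra.IsAlgebraic F M]

lemma minpoly_zero' : minpoly K (0 : B) = Polynomial.X := by
  rw [minpoly.zero]

/-- **Sections of curves with two independent units**, over number fields with at most two
archimedean places. -/
theorem two_main (hK : Fintype.card (InfinitePlace K) ≤ 2) (s : GalSec K F M B)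
    {ι : Type} [Fintype ι] (x : ι → F) (hx0 : ∀ i, x i ≠ 0) (i0 j0 : ι)
    (hind : ∀ a b : ℤ, (a ≠ 0 ∨ b ≠ 0) → Transcendental K (x i0 ^ a * x j0 ^ b))
    (hF : Algebra.IsAlgebraic K⟮x i0⟯ F)
    (hroot : ∀ i, ∀ N : ℕ, 0 < N → ∃ w : M, w ≠ 0 ∧ w ^ N = algebraMap F M (x i))
    (P : ∀ (p : ℕ) [Fact p.Prime] (φ : K →+* PadicAlgCl p), Pt K M φ)
    (hP : ∀ (p : ℕ) [Fact p.Prime] (φ : K →+* PadicAlgCl p), s.GivenBy (P p φ))
    (X : ι → ∀ (p : ℕ) [Fact p.Prime], (K →+* PadicAlgCl p) → PadicAlgCl p)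
    (hX : ∀ i (p : ℕ) [Fact p.Prime] (φ : K →+* PadicAlgCl p),
      (P p φ).Val (algebraMap F M (x i)) (X i p φ))
    (hne : ∀ i (p : ℕ) [Fact p.Prime] (φ : K →+* PadicAlgCl p), X i p φ ≠ 0)
    (hunit : ∀ i, ∃ D : ℕ, 0 < D ∧ ∀ (p : ℕ) [Fact p.Prime] (φ : K →+* PadicAlgCl p),
      ¬ p ∣ D → ‖X i p φ‖ = 1) :
    ∃ ξ : ι → K, (∀ i, ξ i ≠ 0) ∧
      (∀ i (p : ℕ) [Fact p.Prime] (φ : K →+* PadicAlgCl p), X i p φ = φ (ξ i)) ∧
      (∀ G : MvPolynomial ι K, MvPolynomial.aeval x G = 0 → MvPolynomial.aeval ξ G = 0) ∧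
      ∀ i (N : ℕ), 0 < N → ∃ w : M, w ^ N = algebraMap F M (x i) / algebraMap K M (ξ i) ∧
        ∀ g : B ≃ₐ[K] B, s.s g w = w := by
  classical
  have hNF : NumberField K⟮(0 : B)⟯ := numberField_adjoin isIntegral_zero
  have hj0 : s.j 0 = 0 := map_zero s.j
  have hroot' : ∀ i, ∀ N : ℕ, 0 < N → ∃ w : M, w ≠ 0 ∧ w ^ N = algebraMap F M (x i) - s.j 0 := by
    intro i N hN
    rw [hj0, sub_zero]
    exact hroot i N hN
  have hDat : ∀ i, Dat (X i) K (RingHom.id K) 0 := by
    intro i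
    have h1 := s.dat (x i) 0 (hroot' i) P hP (X i) (hX i)
      (fun p _ φ => by
        rw [minpoly_zero', Polynomial.eval₂_X]
        exact hne i p φ) (by
        obtain ⟨D, hD, h⟩ := hunit i
        refine ⟨D, hD, fun p _ φ hp => ?_⟩
        rw [minpoly_zero', Polynomial.eval₂_X]
        exact h p φ hp)
    refine h1.descend ?_ (c := 0) ?_
    · rintro ⟨z, hz⟩
      rw [adjoin_zero, IntermediateField.mem_bot] at hz
      obtain ⟨y, hy⟩ := hz
      exact ⟨y, Subtype.ext hy⟩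
    · rw [map_zero]
      exact Subtype.ext rfl
  -- the relations
  let I : Ideal (MvPolynomial ι K) := RingHom.ker (MvPolynomial.aeval x : _ →ₐ[K] F)
  obtain ⟨S, hS⟩ : I.FG := IsNoetherian.noetherian I
  have hSI : ∀ G ∈ S, MvPolynomial.aeval x G = 0 := fun G hG => by
    have h1 : G ∈ I := by
      rw [← hS]
      exact Ideal.subset_span hG
    exact h1
  have hrel : ∀ G : MvPolynomial ι K, MvPolynomial.aeval x G = 0 → ∀ (p : ℕ) [Fact p.Prime]
      (φ : K →+* PadicAlgCl p), MvPolynomial.eval₂ φ (fun i => X i p φ) G = 0 := by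
    intro G hG p _ φ
    have h1 := val_aeval (P := P p φ) (x := fun i => algebraMap F M (x i)) (fun i => hX i p φ) G
    have h2 : MvPolynomial.aeval (fun i => algebraMap F M (x i)) G =
        algebraMap F M (MvPolynomial.aeval x G) :=
      MvPolynomial.aeval_algebraMap_apply M x G
    rw [h2, hG, map_zero] at h1
    exact (h1.unique val_zero)
  obtain ⟨ξ, hξ0, hξ⟩ := adl_core hK (fun p _ => MM_finite) (fun p _ μ x => LL_le_MM μ (mem_LL μ x))
    X (fun i => adl_of_dat (hDat i)) S (fun G hG => hrel G (hSI G hG)) (by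
      intro P hP w hw
      obtain ⟨G, hG, hG'⟩ := no_coset hx0 i0 j0 hind hF P hP w hw
      by_contra hc
      push Not at hc
      apply hG'
      let E : MvPolynomial ι K →ₐ[K] RatFunc K :=
        MvPolynomial.aeval (fun i => algebraMap K (RatFunc K) (P i) * RatFunc.X ^ w i)
      have h1 : I ≤ RingHom.ker E := by
        rw [← hS]
        exact Ideal.span_le.2 fun g hg => hc g hg
      exact h1 hG)
  refine ⟨ξ, hξ0, fun i p _ φ => hξ p φ i, fun G hG => ?_, fun i N hN => ?_⟩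
  · obtain ⟨φ⟩ : Nonempty (K →+* PadicAlgCl 2) := inferInstance
    have h1 := hrel G hG 2 φ
    have h2 : (fun i => X i 2 φ) = fun i => φ (ξ i) := funext fun i => hξ 2 φ i
    rw [h2] at h1
    have h3 : φ (MvPolynomial.eval₂ (RingHom.id K) ξ G) =
        MvPolynomial.eval₂ (φ.comp (RingHom.id K)) (fun i => φ (ξ i)) G := by
      exact MvPolynomial.eval₂_comp_left φ (RingHom.id K) ξ G
    rw [RingHom.comp_id, h1] at h3
    exact (map_eq_zero φ).1 h3
  obtain ⟨w, hw, hw'⟩ := s.abelian (x i) 0 (hroot' i) P hP (ξ i) (fun p _ φ => by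
    rw [← hξ p φ i]
    exact hX i p φ) (by
    rw [Ne, map_eq_zero]
    exact hξ0 i) N hN
  rw [hj0, sub_zero, sub_zero] at hw
  exact ⟨w, hw, fun g => hw' g (map_zero g)⟩

end main

end Pool.Agent.H886.Exp
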