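import Pool.Agent.H886.Exp.Two
import Pool.Graph.R_pool_sql_team_seeded_3997aac3.Q33.BSec.Gen

/-!
# Sections of curves with two independent units, given over the completions by points with few
zeros and poles
-/

set_option autoImplicit false
set_option linter.unusedSectionVars false

open IsDedekindDomain NumberField Polynomial

namespace Pool.Agent.H886.Exp

open Pool.Agent.TH942 Pool.Agent.TH954 Pool.Agent.TH841.NF
open Pool.Agent.Q33.SecL (GalSec Pt)
open Pool.Agent.Q33.BSec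

section main

variable {K : Type} [Field K] [NumberField K] {F M B : Type} [Field F] [Field M] [Field B]
  [Algebra K F] [Algebra F M] [Algebra.IsAlgebraic F M] [Algebra K M] [IsScalarTower K F M]
  [Algebra K B] [IsAlgClosure K B]

/-- the values at few zeros and poles are units at almost all places -/
theorem unit_of_few (s : GalSection K F M B) (x : F)
    (hroot : ∀ N : ℕ, 0 < N → ∃ w : M, w ≠ 0 ∧ w ^ N = algebraMap F M x)
    (pl : ∀ v : HeightOneSpectrum (𝓞 K), Plc K M (AlgebraicClosure (v.adicCompletion K)))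
    (hpl : ∀ v : HeightOneSpectrum (𝓞 K), Cmp (L := v.adicCompletion K) s (pl v))
    (X : ∀ v : HeightOneSpectrum (𝓞 K), v.adicCompletion K)
    (hX : ∀ v, (pl v).val (algebraMap F M x) (algebraMap _ _ (X v)))
    (hne : ∀ v, X v ≠ 0) (N : ℕ) (hN : 0 < N)
    (hsp : ∀ᶠ v in Filter.cofinite, ∀ k : ℤ,
      Valued.v (X v) = WithZero.exp ((N : ℤ) * k) → k = 0) :
    ∃ D' : ℕ, 0 < D' ∧ ∀ (p : ℕ) [Fact p.Prime] (φ : K →+* PadicAlgCl p), ¬ p ∣ D' →
      ‖jc φ (X (pls φ))‖ = 1 := by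
  have hB1 : IsAlgClosed B := IsAlgClosure.isAlgClosed K
  have hB2 : Algebra.IsAlgebraic K B := IsAlgClosure.isAlgebraic
  have hXv : ∀ (p : ℕ) [Fact p.Prime] (φ : K →+* PadicAlgCl p),
      (toPt φ (pl (pls φ))).Val (algebraMap F M x) (jc φ (X (pls φ))) := by
    intro p _ φ
    have h1 := toPt_val (hX (pls φ))
    rwa [bx_alg] at h1
  have hne' : ∀ (p : ℕ) [Fact p.Prime] (φ : K →+* PadicAlgCl p), jc φ (X (pls φ)) ≠ 0 := by
    intro p _ φ
    exact (_root_.map_ne_zero _).2 (hne _)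
  have hgiv : ∀ (p : ℕ) [Fact p.Prime] (φ : K →+* PadicAlgCl p),
      (toSec s).GivenBy (toPt φ (pl (pls φ))) := fun p _ φ =>
    givenBy_of_cmp s φ _ (hpl _)
  obtain ⟨D, hD, hDT⟩ := exists_bound _ (Filter.eventually_cofinite.1 hsp)
  have := Pool.Agent.Q33.SecL.numberField_adjoin (K := K) (isIntegral_zero (R := K) (B := B))
  obtain ⟨D', hD', h⟩ := unit_of_sparse (toSec s) x 0 (by
      intro N hN
      rw [map_zero, sub_zero]
      exact hroot N hN)
    (fun p _ φ => toPt φ (pl (pls φ))) hgiv (fun p _ φ => jc φ (X (pls φ))) hXv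
    (fun p _ φ => by
      rw [minpoly_zero', Polynomial.eval₂_X]
      exact hne' p φ) N hN D hD (by
    intro p _ φ hp z hz
    have h1 := hDT p φ hp
    simp only [Set.mem_ofPred_eq, not_not] at h1
    rw [minpoly_zero', Polynomial.eval₂_X] at hz
    obtain ⟨e, he, hve⟩ := exists_ram φ
    set y := X (pls φ) with hy
    have hy0 : Valued.v y ≠ 0 := (Valuation.ne_zero_iff _).2 (hne _)
    obtain ⟨m, hm⟩ : ∃ m : ℤ, Valued.v y = WithZero.exp m :=
      ⟨WithZero.log (Valued.v y), (WithZero.exp_log hy0).symm⟩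
    have h2 := norm_jc_exp φ hve hm
    have hp1 : (1 : ℝ) < p := by exact_mod_cast (Fact.out : p.Prime).one_lt
    have h3 : (p : ℝ) ^ ((N : ℤ) * z * e) = (p : ℝ) ^ m := by
      rw [← h2, hz, zpow_mul, zpow_natCast]
    have h4 : (N : ℤ) * z * e = m := zpow_right_injective₀ (by linarith) hp1.ne' h3
    have h5 : z * e = 0 := by
      apply h1 (z * e)
      rw [hm, ← h4, mul_assoc]
    rcases mul_eq_zero.1 h5 with h6 | h6
    · exact h6
    · have : e = 0 := by exact_mod_cast h6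
      omega)
  refine ⟨D', hD', fun p _ φ hp => ?_⟩
  have h1 := h p φ hp
  rwa [minpoly_zero', Polynomial.eval₂_X] at h1

/-- **Sections of curves with two independent units.** -/
theorem two_gen (hK : Fintype.card (InfinitePlace K) ≤ 2) (s : GalSection K F M B)
    {ι : Type} [Fintype ι] (x : ι → F) (hx0 : ∀ i, x i ≠ 0) (i0 j0 : ι)
    (hind : ∀ a b : ℤ, (a ≠ 0 ∨ b ≠ 0) → Transcendental K (x i0 ^ a * x j0 ^ b))
    (hF : Algebra.IsAlgebraic (IntermediateField.adjoin K {x i0}) F)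
    (hroot : ∀ i, ∀ N : ℕ, 0 < N → ∃ w : M, w ≠ 0 ∧ w ^ N = algebraMap F M (x i))
    (pl : ∀ v : HeightOneSpectrum (𝓞 K), Plc K M (AlgebraicClosure (v.adicCompletion K)))
    (hpl : ∀ v : HeightOneSpectrum (𝓞 K), Cmp (L := v.adicCompletion K) s (pl v))
    (X : ∀ v : HeightOneSpectrum (𝓞 K), ι → v.adicCompletion K)
    (hX : ∀ v i, (pl v).val (algebraMap F M (x i)) (algebraMap _ _ (X v i)))
    (hne : ∀ v i, X v i ≠ 0) (N : ℕ) (hN : 0 < N)
    (hsp : ∀ᶠ v in Filter.cofinite, ∀ (i : ι) (k : ℤ),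
      Valued.v (X v i) = WithZero.exp ((N : ℤ) * k) → k = 0) :
    ∃ ξ : ι → K, (∀ i, ξ i ≠ 0) ∧
      (∀ v i, X v i = algebraMap K (v.adicCompletion K) (ξ i)) ∧
      (∀ G : MvPolynomial ι K, MvPolynomial.aeval x G = 0 → MvPolynomial.aeval ξ G = 0) ∧
      ∀ i (N : ℕ), 0 < N → ∃ w : M, w ^ N = algebraMap F M (x i) / algebraMap K M (ξ i) ∧
        ∀ g : B ≃ₐ[K] B, s.s g w = w := by
  have hB1 : IsAlgClosed B := IsAlgClosure.isAlgClosed K
  have hB2 : Algebra.IsAlgebraic K B := IsAlgClosure.isAlgebraic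
  obtain ⟨ξ, h1, hξ, h3, h2⟩ := two_main hK (toSec s) x hx0 i0 j0 hind hF hroot
    (fun p _ φ => toPt φ (pl (pls φ))) (fun p _ φ => givenBy_of_cmp s φ _ (hpl _))
    (fun i p _ φ => jc φ (X (pls φ) i)) (fun i p _ φ => by
      have h1 := toPt_val (hX (pls φ) i)
      rwa [bx_alg] at h1)
    (fun i p _ φ => (_root_.map_ne_zero _).2 (hne _ i))
    (fun i => unit_of_few s (x i) (hroot i) pl hpl (fun v => X v i) (fun v => hX v i)
      (fun v => hne v i) N hN (hsp.mono fun v hv k hk => hv i k hk))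
  refine ⟨ξ, h1, ?_, h3, h2⟩
  intro v i
  obtain ⟨p, hp, φ, rfl⟩ := exists_pls v
  apply (jc φ).injective
  rw [jc_coe]
  exact hξ i p φ

end main

section bir

variable {K : Type} [Field K] [NumberField K] {F Ω B : Type} [Field F] [Field Ω] [Field B]
  [Algebra K F] [Algebra F Ω] [Algebra K Ω] [Algebra K B] [IsScalarTower K F Ω]
  [IsAlgClosure F Ω] [IsAlgClosure K B]

/-- **Birational sections with few zeros and poles of some functions.** -/
theorem two_bir (hK : Fintype.card (InfinitePlace K) ≤ 2) (s : GalSection K F Ω B)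
    {ι : Type} [Fintype ι] (x : ι → F) (hx0 : ∀ i, x i ≠ 0) (i0 j0 : ι)
    (hind : ∀ a b : ℤ, (a ≠ 0 ∨ b ≠ 0) → Transcendental K (x i0 ^ a * x j0 ^ b))
    (hF : Algebra.IsAlgebraic (IntermediateField.adjoin K {x i0}) F)
    (pl : ∀ v : HeightOneSpectrum (𝓞 K), Plc K Ω (AlgebraicClosure (v.adicCompletion K)))
    (hpl : ∀ v : HeightOneSpectrum (𝓞 K), Cmp (L := v.adicCompletion K) s (pl v))
    (X : ∀ v : HeightOneSpectrum (𝓞 K), ι → v.adicCompletion K)
    (hX : ∀ v i, (pl v).val (algebraMap F Ω (x i)) (algebraMap _ _ (X v i)))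
    (hne : ∀ v i, X v i ≠ 0) (N : ℕ) (hN : 0 < N)
    (hsp : ∀ᶠ v in Filter.cofinite, ∀ (i : ι) (k : ℤ),
      Valued.v (X v i) = WithZero.exp ((N : ℤ) * k) → k = 0) :
    ∃ ξ : ι → K, (∀ i, ξ i ≠ 0) ∧
      (∀ v i, X v i = algebraMap K (v.adicCompletion K) (ξ i)) ∧
      ∃ O : ValuationSubring F, s.ArisesFrom O ∧
        (∀ i, O.valuation (x i - algebraMap K F (ξ i)) < 1) ∧
        ∀ O' : ValuationSubring F, s.ArisesFrom O' → O' = O := by
  have hΩ1 : IsAlgClosed Ω := IsAlgClosure.isAlgClosed F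
  have hΩ2 : Algebra.IsAlgebraic F Ω := IsAlgClosure.isAlgebraic
  have hx0t : Transcendental K (x i0) := by
    have := hind 1 0 (Or.inl one_ne_zero)
    simpa using this
  obtain ⟨ξ, hξ0, hXξ, -⟩ := two_gen hK s x hx0 i0 j0 hind hF (fun i N hN => by
    obtain ⟨w, hw⟩ := IsAlgClosed.exists_pow_nat_eq (algebraMap F Ω (x i)) hN
    refine ⟨w, ?_, hw⟩
    rintro rfl
    rw [zero_pow hN.ne'] at hw
    exact hx0 i ((map_eq_zero _).1 hw.symm)) pl hpl X hX hne N hN hsp
  have hXv : ∀ i v, (pl v).val (algebraMap F Ω (x i - algebraMap K F (ξ i))) 0 := by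
    intro i v
    have h1 := (hX v i).sub (Plc.val_alg (pl := pl v) (ξ i))
    rw [hXξ v, ← IsScalarTower.algebraMap_apply, sub_self] at h1
    rw [map_sub, ← IsScalarTower.algebraMap_apply]
    exact h1
  have hO : ∀ t : F, t ≠ 0 → (∀ v, (pl v).val (algebraMap F Ω t) 0) →
      ∃ O : ValuationSubring F, s.ArisesFrom O ∧ O.valuation t < 1 ∧
        ∀ O' : ValuationSubring F, s.ArisesFrom O' → O' = O := by
    intro t ht h
    exact arises_of_val_zero ⟨x i0, hx0t, hF⟩ s pl (fun v => geoPlc_of_cmp s (hpl v)) t ht h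
  obtain ⟨O, hO1, hO2, hO3⟩ := hO (x i0 - algebraMap K F (ξ i0)) (by
    intro h
    apply hx0t
    rw [sub_eq_zero.1 h]
    exact isAlgebraic_algebraMap (ξ i0)) (hXv i0)
  refine ⟨ξ, hξ0, hXξ, O, hO1, fun i => ?_, hO3⟩
  by_cases hi : x i - algebraMap K F (ξ i) = 0
  · rw [hi, map_zero]
    exact zero_lt_one
  · obtain ⟨O', hO1', hO2', hO3'⟩ := hO _ hi (hXv i)
    rw [hO3' O hO1]
    exact hO2'

end bir

section unr

open Pool.Agent.W620.SC (unramified)

variable {K F Ω B : Type} [Field K] [NumberField K] [Field F] [Field Ω] [Field B]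
  [Algebra K F] [Algebra F Ω] [Algebra K Ω] [IsScalarTower K F Ω] [IsAlgClosure F Ω]
  [Algebra K B] [IsAlgClosure K B]

/-- the roots of units are unramified -/
theorem roots_unit (C : Set (ValuationSubring F)) (hC : ∀ O ∈ C, ∀ c : K, algebraMap K F c ∈ O)
    (x : F) (hx0 : x ≠ 0) (hx : ∀ O ∈ C, x ∈ O ∧ x⁻¹ ∈ O)
    (s : GalSection K F (unramified F Ω C) B) (N : ℕ) (hN : 0 < N) :
    ∃ w : unramified F Ω C, w ≠ 0 ∧ w ^ N = algebraMap F _ x := by
  have h1 : IsAlgClosed Ω := IsAlgClosure.isAlgClosed F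
  have h3 : IsAlgClosed B := IsAlgClosure.isAlgClosed K
  have h4 : Algebra.IsAlgebraic K B := IsAlgClosure.isAlgebraic
  obtain ⟨w, hw0, hw⟩ := Pool.Agent.Q33.SecL.exists_root_unramified C hC s.j (0 : B)
    isIntegral_zero x (fun O hO => ⟨(hx O hO).1, by
      rw [minpoly_zero', aeval_X]
      exact (hx O hO).2⟩) (by
      rw [minpoly_zero', aeval_X]
      exact hx0) hN
  rw [map_zero, sub_zero] at hw
  exact ⟨w, hw0, hw⟩

end unr

end Pool.Agent.H886.Exp
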